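import Pool.Agent.H566V.Core1
import Pool.Agent.H566V.Order

/-!
Locally constant families of structures indexed by Cantor space.
-/

set_option autoImplicit false

namespace Pool.Agent.H566W

open Set Filter Topology Pool.Agent.H566V

variable {r : ℕ} {K : Type} {V W X : Type}

/-- locally constant families -/
def LC (g : (ℕ → Bool) → Str r K V) : Prop :=
  ∀ t A, ∃ N : ℕ, ∀ B : ℕ → Bool, (∀ i < N, B i = A i) → g B t = g A t

/-- a locally constant family of structures, all of whose finite substructures embed into `S`, with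
countable isomorphism classes -/
def PC (S : Str r K W) : Prop :=
  ∃ g : (ℕ → Bool) → Str r K ℕ, LC g ∧ (∀ A, Cls S (g A)) ∧
    ∀ A, {B | Isom (g A) (g B)}.Countable

/-- restriction -/
def rs (c : Str r K X) (D : Set X) : Str r K D := fun t => c (fun j => (t j).1)

theorem nth_loc {D : (ℕ → Bool) → Set ℕ}
    (hloc : ∀ x A, ∃ N : ℕ, ∀ B : ℕ → Bool, (∀ i < N, B i = A i) → (x ∈ D B ↔ x ∈ D A))
    (hinf : ∀ A, (D A).Infinite) (A : ℕ → Bool) (i : ℕ) :
    ∃ N : ℕ, ∀ B : ℕ → Bool, (∀ i < N, B i = A i) →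
      Nat.nth (· ∈ D B) i = Nat.nth (· ∈ D A) i := by
  classical
  choose κ hκ using fun x => hloc x A
  set v := Nat.nth (· ∈ D A) i with hv
  have hmem : v ∈ D A := Nat.nth_mem_of_infinite (p := (· ∈ D A)) (hinf A) i
  refine ⟨(Finset.range (v + 1)).sup κ, fun B hB => ?_⟩
  have hiff : ∀ z < v + 1, (z ∈ D B ↔ z ∈ D A) := fun z hz =>
    hκ z B (fun i hi => hB i (lt_of_lt_of_le hi
      (Finset.le_sup (f := κ) (Finset.mem_range.2 hz))))
  have hvm : v ∈ D B := (hiff v (Nat.lt_succ_self v)).2 hmem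
  have hcount : Nat.count (· ∈ D B) v = Nat.count (· ∈ D A) v := by
    rw [Nat.count_eq_card_filter_range, Nat.count_eq_card_filter_range]
    congr 1
    apply Finset.filter_congr
    intro z hz
    exact hiff z (Nat.lt_succ_of_lt (Finset.mem_range.1 hz))
  have hi : Nat.count (· ∈ D A) v = i := by
    rw [hv]
    exact Nat.count_nth_of_infinite (p := (· ∈ D A)) (hinf A) i
  have := Nat.nth_count (p := (· ∈ D B)) hvm
  rw [hcount, hi] at this
  exact this

theorem pc_of_family {S : Str r K W} (c : Str r K X) (hcls : Cls S c) (D : (ℕ → Bool) → Set X)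
    (Dinf : Set X) (hDc : Dinf.Countable) (hDs : ∀ A, D A ⊆ Dinf)
    (hloc : ∀ x A, ∃ N : ℕ, ∀ B : ℕ → Bool, (∀ i < N, B i = A i) → (x ∈ D B ↔ x ∈ D A))
    (hinf : ∀ A, (D A).Infinite)
    (hiso : ∀ A, {B | Isom (rs c (D A)) (rs c (D B))}.Countable) : PC S := by
  classical
  have := hDc.to_subtype
  obtain ⟨ε, hε⟩ := exists_injective_nat Dinf
  obtain ⟨x₀, hx₀⟩ := (hinf (fun _ => false)).nonempty
  let dec : ℕ → X := fun n => if h : ∃ x : Dinf, ε x = n then h.choose.1 else x₀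
  have hdec : ∀ x : Dinf, dec (ε x) = x.1 := by
    intro x
    have h : ∃ y : Dinf, ε y = ε x := ⟨x, rfl⟩
    simp only [dec, dif_pos h]
    exact congrArg Subtype.val (hε h.choose_spec)
  let D' : (ℕ → Bool) → Set ℕ := fun A => {n | ∃ x : Dinf, x.1 ∈ D A ∧ ε x = n}
  have hmem : ∀ A (x : Dinf), ε x ∈ D' A ↔ x.1 ∈ D A := by
    intro A x
    constructor
    · rintro ⟨y, hy, h⟩
      rw [← hε h]; exact hy
    · intro h
      exact ⟨x, h, rfl⟩
  have hloc' : ∀ x A, ∃ N : ℕ, ∀ B : ℕ → Bool, (∀ i < N, B i = A i) →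
      (x ∈ D' B ↔ x ∈ D' A) := by
    intro n A
    by_cases h : ∃ x : Dinf, ε x = n
    · obtain ⟨x, rfl⟩ := h
      obtain ⟨N, hN⟩ := hloc x.1 A
      refine ⟨N, fun B hB => ?_⟩
      rw [hmem, hmem]
      exact hN B hB
    · refine ⟨0, fun B _ => ?_⟩
      constructor
      · rintro ⟨x, -, hx⟩; exact absurd ⟨x, hx⟩ h
      · rintro ⟨x, -, hx⟩; exact absurd ⟨x, hx⟩ h
  have hinf' : ∀ A, (D' A).Infinite := by
    intro A hfin
    apply hinf A
    have h1 : D A ⊆ dec '' (D' A) := by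
      intro x hx
      exact ⟨ε ⟨x, hDs A hx⟩, (hmem A _).2 hx, hdec _⟩
    exact (hfin.image dec).subset h1
  have hnth : ∀ A i, Nat.nth (· ∈ D' A) i ∈ D' A := fun A i =>
    Nat.nth_mem_of_infinite (p := (· ∈ D' A)) (hinf' A) i
  have hdD : ∀ A n, n ∈ D' A → dec n ∈ D A := by
    rintro A n ⟨x, hx, rfl⟩
    rw [hdec]; exact hx
  have hdinj : ∀ A, Set.InjOn dec (D' A) := by
    rintro A _ ⟨x, hx, rfl⟩ _ ⟨y, hy, rfl⟩ h
    rw [hdec, hdec] at h
    rw [Subtype.ext h]
  let f : ∀ A, ℕ → D A := fun A i => ⟨dec (Nat.nth (· ∈ D' A) i), hdD A _ (hnth A i)⟩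
  have hf : ∀ A, Function.Bijective (f A) := by
    intro A
    constructor
    · intro i j hij
      have h1 := congrArg Subtype.val hij
      exact Nat.nth_injective (p := (· ∈ D' A)) (hinf' A)
        (hdinj A (hnth A i) (hnth A j) h1)
    · rintro ⟨x, hx⟩
      have h1 : ε ⟨x, hDs A hx⟩ ∈ Set.range (Nat.nth (· ∈ D' A)) := by
        rw [Nat.range_nth_of_infinite (p := (· ∈ D' A)) (hinf' A)]
        exact (hmem A _).2 hx
      obtain ⟨i, hi⟩ := h1
      refine ⟨i, Subtype.ext ?_⟩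
      show dec (Nat.nth (· ∈ D' A) i) = x
      rw [hi, hdec]
  let g : (ℕ → Bool) → Str r K ℕ := fun A t => c (fun j => dec (Nat.nth (· ∈ D' A) (t j)))
  have hg : ∀ A, Isom (g A) (rs c (D A)) := fun A => ⟨Equiv.ofBijective (f A) (hf A), fun t => rfl⟩
  refine ⟨g, fun t A => ?_, fun A => ?_, fun A => ?_⟩
  · choose N hN using fun j => nth_loc hloc' hinf' A (t j)
    refine ⟨Finset.univ.sup N, fun B hB => ?_⟩
    show c _ = c _
    congr 1
    funext j
    rw [hN j B (fun i hi => hB i (lt_of_lt_of_le hi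
      (Finset.le_sup (f := N) (Finset.mem_univ j))))]
  · refine hcls.pull (fun i => dec (Nat.nth (· ∈ D' A) i)) (fun i j hij => ?_)
    exact Nat.nth_injective (p := (· ∈ D' A)) (hinf' A) (hdinj A (hnth A i) (hnth A j) hij)
  · exact (hiso A).mono (fun B hB => ((hg A).symm.trans hB).trans (hg B))

theorem codeSet_loc (i : ℕ) (A B : ℕ → Bool) (h : ∀ k < i + 1, B k = A k) :
    i ∈ codeSet B ↔ i ∈ codeSet A := by
  constructor
  · rintro (⟨k, hk⟩ | ⟨k, hk, hk2⟩)
    · exact Or.inl ⟨k, hk⟩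
    · exact Or.inr ⟨k, hk, by rw [← h k (by omega)]; exact hk2⟩
  · rintro (⟨k, hk⟩ | ⟨k, hk, hk2⟩)
    · exact Or.inl ⟨k, hk⟩
    · exact Or.inr ⟨k, hk, by rw [h k (by omega)]; exact hk2⟩

end Pool.Agent.H566W
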