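import Pool.Agent.H566V.El
import Pool.Agent.H566W.Fam

/-!
The order case, with a locally constant family.
-/

set_option autoImplicit false

namespace Pool.Agent.H566W

open Set Filter Topology Pool.Agent.H566V

variable {r : ℕ} {K V G W' : Type}

theorem pos_exists' (l u : ℚ) (hlu : l < u) (n : ℕ → ℕ) (hn : ∀ i, 0 < n i) :
    ∃ (M : Set ℚ) (Gr : ℕ → Finset ℚ), (∀ i, (Gr i).card = n i) ∧
      (∀ i i' x, x ∈ Gr i → x ∈ Gr i' → i = i') ∧ ∀ I : Set ℕ, I.Infinite →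
      Pos l u {x | ∃ i ∈ I, x ∈ Gr i} M I Gr := by
  classical
  have hne : Nonempty (Set.Ioo l u) := by
    obtain ⟨x, h1, h2⟩ := exists_between hlu
    exact ⟨⟨x, h1, h2⟩⟩
  obtain ⟨e⟩ : Nonempty (ℚ ≃o Set.Ioo l u) := Order.iso_of_countable_dense ℚ (Set.Ioo l u)
  let ι : ℚ → ℚ := fun q => (e q : ℚ)
  have hι : StrictMono ι := fun a b hab => e.strictMono hab
  have hιr : ∀ x, l < x → x < u → ∃ q, ι q = x := fun x h1 h2 => ⟨e.symm ⟨x, h1, h2⟩, by simp [ι]⟩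
  have hιl : ∀ q, l < ι q ∧ ι q < u := fun q => (e q).2
  have hsep₀ : ∀ (I : Set ℕ) (x y : ℚ), (x ∈ {x | ∃ i ∈ I, x ∈ G₀ n i} ∨ x ∈ M₀) → (y ∈ {x | ∃ i ∈ I, x ∈ G₀ n i} ∨ y ∈ M₀) → x < y →
      (¬ ∃ i ∈ I, x ∈ G₀ n i ∧ y ∈ G₀ n i) → {z | z ∈ M₀ ∧ x < z ∧ z < y}.Infinite := by
    intro I x y hx hy hxy hno
    rcases hx with ⟨i, hi, hxi⟩ | ⟨k, hk1, hk2⟩
    · rcases hy with ⟨i', hi', hyi⟩ | ⟨k, hk1, hk2⟩
      · have hle := G₀_sep hxi hyi hxy
        have hne : i ≠ i' := by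
          rintro rfl
          exact hno ⟨i, hi, hxi, hyi⟩
        have hlt : (i : ℚ) + 1 ≤ i' := by exact_mod_cast lt_of_le_of_ne hle hne
        have h1 := mem_G₀ hxi
        have h2 := mem_G₀ hyi
        refine (Set.Ioo_infinite (show (i : ℚ) + 1 / 2 < i + 1 by linarith)).mono ?_
        rintro z ⟨hz1, hz2⟩
        exact ⟨⟨i, by exact_mod_cast hz1, by exact_mod_cast hz2⟩, by linarith, by linarith⟩
      · refine (Set.Ioo_infinite (show max x ((k : ℚ) + 1 / 2) < y from max_lt hxy hk1)).mono ?_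
        rintro z ⟨hz1, hz2⟩
        exact ⟨⟨k, lt_of_le_of_lt (le_max_right _ _) hz1, hz2.trans hk2⟩,
          lt_of_le_of_lt (le_max_left _ _) hz1, hz2⟩
    · refine (Set.Ioo_infinite (show x < min y ((k : ℚ) + 1) from lt_min hxy hk2)).mono ?_
      rintro z ⟨hz1, hz2⟩
      exact ⟨⟨k, hk1.trans hz1, hz2.trans_le (min_le_right _ _)⟩, hz1,
        hz2.trans_le (min_le_left _ _)⟩
  have hMl₀ : ∀ x : ℚ, {y | y ∈ M₀ ∧ y < x}.Infinite := by
    intro x
    have h1 : ((⌊x⌋ - 1 : ℤ) : ℚ) + 1 / 2 < ((⌊x⌋ - 1 : ℤ) : ℚ) + 1 := by linarith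
    refine (Set.Ioo_infinite h1).mono ?_
    rintro z ⟨hz1, hz2⟩
    refine ⟨⟨⌊x⌋ - 1, hz1, hz2⟩, hz2.trans_le ?_⟩
    push_cast
    have := Int.floor_le x
    linarith
  have hMr₀ : ∀ x : ℚ, {y | y ∈ M₀ ∧ x < y}.Infinite := by
    intro x
    have h1 : ((⌊x⌋ + 1 : ℤ) : ℚ) + 1 / 2 < ((⌊x⌋ + 1 : ℤ) : ℚ) + 1 := by linarith
    refine (Set.Ioo_infinite h1).mono ?_
    rintro z ⟨hz1, hz2⟩
    refine ⟨⟨⌊x⌋ + 1, hz1, hz2⟩, lt_trans ?_ hz1⟩
    push_cast
    have := Int.lt_floor_add_one x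
    linarith
  refine ⟨ι '' M₀, fun i => (G₀ n i).image ι, fun i => ?_, fun i i' x hx hx' => ?_,
    fun I hI => ?_⟩
  · rw [Finset.card_image_of_injective _ hι.injective, card_G₀]
  · obtain ⟨q, hq, rfl⟩ := Finset.mem_image.1 hx
    obtain ⟨q', hq', h⟩ := Finset.mem_image.1 hx'
    rw [hι.injective h] at hq'
    exact G₀_uniq hq hq'
  have hL₀ : {x | ∃ i ∈ I, x ∈ (G₀ n i).image ι} = ι '' {x | ∃ i ∈ I, x ∈ G₀ n i} := by
    ext x
    constructor
    · rintro ⟨i, hi, hx⟩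
      obtain ⟨q, hq, rfl⟩ := Finset.mem_image.1 hx
      exact ⟨q, ⟨i, hi, hq⟩, rfl⟩
    · rintro ⟨q, ⟨i, hi, hq⟩, rfl⟩
      exact ⟨i, hi, Finset.mem_image_of_mem ι hq⟩
  rw [hL₀]
  have hmem : ∀ i q, ι q ∈ (G₀ n i).image ι ↔ q ∈ G₀ n i := by
    intro i q
    rw [Finset.mem_image]
    constructor
    · rintro ⟨q', h1, h2⟩
      rw [← hι.injective h2]; exact h1
    · intro h
      exact ⟨q, h, rfl⟩
  have hmemI : ∀ (T : Set ℚ) (q : ℚ), ι q ∈ ι '' T ↔ q ∈ T := fun T q =>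
    hι.injective.mem_set_image
  refine ⟨?_, ?_, ?_, ?_, ?_, ?_, ?_, ?_, ?_, ?_, ?_⟩
  · intro x
    constructor
    · rintro ⟨q, ⟨i, hi, hq⟩, rfl⟩
      exact ⟨i, hi, (hmem i q).2 hq⟩
    · rintro ⟨i, hi, hx⟩
      obtain ⟨q, hq, rfl⟩ := Finset.mem_image.1 hx
      exact ⟨q, ⟨i, hi, hq⟩, rfl⟩
  · rintro x ⟨q, -, rfl⟩
    exact hιl q
  · rintro x ⟨q, -, rfl⟩
    exact hιl q
  · rintro x ⟨q, ⟨i, hi, hq⟩, rfl⟩ hM
    rw [hmemI] at hM
    exact G₀_M₀ hq hM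
  · intro x h1 h2
    obtain ⟨q, rfl⟩ := hιr x h1 h2
    refine ((hMl₀ q).image hι.injective.injOn).mono ?_
    rintro _ ⟨z, ⟨hz1, hz2⟩, rfl⟩
    exact ⟨⟨z, hz1, rfl⟩, hι hz2⟩
  · intro x h1 h2
    obtain ⟨q, rfl⟩ := hιr x h1 h2
    refine ((hMr₀ q).image hι.injective.injOn).mono ?_
    rintro _ ⟨z, ⟨hz1, hz2⟩, rfl⟩
    exact ⟨⟨z, hz1, rfl⟩, hι hz2⟩
  · intro i _ x hx y hy z hz
    obtain ⟨q, hq, rfl⟩ := Finset.mem_image.1 hx
    obtain ⟨q', hq', rfl⟩ := Finset.mem_image.1 hy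
    obtain ⟨w, ⟨k, hk1, hk2⟩, rfl⟩ := hz
    rintro ⟨h1, h2⟩
    rw [hι.lt_iff_lt] at h1 h2
    have h3 := mem_G₀ hq
    have h4 := mem_G₀ hq'
    have h5 : (k : ℚ) < i := by linarith
    have h6 : (k : ℚ) + 1 ≤ i := by exact_mod_cast (by exact_mod_cast h5 : k < (i : ℤ))
    linarith
  · rintro x y hx hy hxy hno
    obtain ⟨q, rfl⟩ : ∃ q, ι q = x := by
      rcases hx with ⟨q, -, rfl⟩ | ⟨q, -, rfl⟩ <;> exact ⟨q, rfl⟩
    obtain ⟨q', rfl⟩ : ∃ q, ι q = y := by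
      rcases hy with ⟨q, -, rfl⟩ | ⟨q, -, rfl⟩ <;> exact ⟨q, rfl⟩
    rw [hmemI, hmemI] at hx hy
    have h1 := hsep₀ I q q' hx hy (hι.lt_iff_lt.1 hxy) (fun ⟨i, hi, h1, h2⟩ =>
      hno ⟨i, hi, (hmem i q).2 h1, (hmem i q').2 h2⟩)
    refine (h1.image hι.injective.injOn).mono ?_
    rintro _ ⟨z, ⟨hz1, hz2, hz3⟩, rfl⟩
    exact ⟨⟨z, hz1, rfl⟩, hι hz2, hι hz3⟩
  · intro x y h1 h2
    by_cases hxy : x < y
    swap
    · refine Set.finite_empty.subset ?_
      rintro z ⟨-, hz1, hz2⟩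
      exact hxy (hz1.trans hz2)
    obtain ⟨q', rfl⟩ := hιr y (h1.trans hxy) h2
    have hfin : (⋃ i ∈ Set.Iic ⌈q'⌉₊, (((G₀ n i).image ι : Finset ℚ) : Set ℚ)).Finite :=
      (Set.finite_Iic _).biUnion (fun i _ => Finset.finite_toSet _)
    refine hfin.subset ?_
    rintro _ ⟨⟨z, ⟨i, hi, hz⟩, rfl⟩, hz1, hz2⟩
    rw [hι.lt_iff_lt] at hz2
    have h3 := mem_G₀ hz
    have h4 : (i : ℚ) < q' := by linarith
    rw [Set.mem_iUnion₂]
    refine ⟨i, ?_, Finset.mem_coe.2 ((hmem i z).2 hz)⟩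
    have h5 : (i : ℚ) ≤ (⌈q'⌉₊ : ℚ) := h4.le.trans (Nat.le_ceil q')
    exact_mod_cast h5
  · have h1 : (ι '' ((fun i : ℕ => (i : ℚ) + 1 / 3) '' I)).Infinite := by
      refine (hI.image ?_).image hι.injective.injOn
      intro a _ b _ hab
      have : (a : ℚ) + 1 / 3 = b + 1 / 3 := hab
      have h3 : (a : ℚ) = b := by linarith
      exact_mod_cast h3
    refine h1.mono (Set.image_mono ?_)
    rintro _ ⟨i, hi, rfl⟩
    exact ⟨i, hi, Finset.mem_image.2 ⟨0, Finset.mem_range.2 (hn i), by norm_num⟩⟩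
  · intro i _ i' _ x hx hx'
    obtain ⟨q, hq, rfl⟩ := Finset.mem_image.1 hx
    exact G₀_uniq hq ((hmem i' q).1 hx')

/-- Theorem A. -/
theorem pc_of_not_fullSym {S : Str r K W'} {c : Str r K (V ⊕ (ℚ × G))} (hc : PatInv c)
    (hS : Cls S c) (h : ¬ FullSym c) : PC S := by
  classical
  obtain ⟨t₀, x₀, y₀, l, u, col, hw⟩ := exists_wit hc h
  set C := CC t₀ x₀ with hC
  let n : ℕ → ℕ := fun i => (2 * C + 2) ^ (i + 1)
  have hn0 : ∀ i, 0 < n i := fun i => by positivity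
  have hnC : ∀ i, C < n i := fun i => by
    have : 2 * C + 2 ≤ (2 * C + 2) ^ (i + 1) := Nat.le_self_pow (by omega) _
    show C < (2 * C + 2) ^ (i + 1)
    omega
  have hnmono : ∀ i j, i < j → n i * C < n j := by
    intro i j hij
    have h1 : n i * (2 * C + 2) ≤ n j := by
      show (2 * C + 2) ^ (i + 1) * (2 * C + 2) ≤ (2 * C + 2) ^ (j + 1)
      rw [← pow_succ]
      exact Nat.pow_le_pow_right (by omega) (by omega)
    have h2 : n i * C < n i * (2 * C + 2) := Nat.mul_lt_mul_of_pos_left (by omega) (hn0 i)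
    omega
  have hnuniq : ∀ i j m, n i ≤ m → m ≤ n i * C → n j ≤ m → m ≤ n j * C → i = j := by
    intro i j m h1 h2 h3 h4
    rcases lt_trichotomy i j with h | h | h
    · have := hnmono i j h; omega
    · exact h
    · have := hnmono j i h; omega
  obtain ⟨M, Gr, hcard, huniq, hpos'⟩ := pos_exists' l u (hw.lx.trans (hw.lt.trans hw.yu)) n hn0
  let L : (ℕ → Bool) → Set ℚ := fun A => {x | ∃ i ∈ codeSet A, x ∈ Gr i}
  have hpos : ∀ A, Pos l u (L A) M (codeSet A) Gr := fun A => hpos' _ (codeSet_infinite A)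
  let D : (ℕ → Bool) → Set (V ⊕ (ℚ × G)) := fun A => DD t₀ x₀ y₀ col (L A) M
  have hDc : ∀ A, Countable (D A) := fun A => (DD_countable t₀ x₀ y₀ col (L A) M).to_subtype
  have hDi : ∀ A, Infinite (D A) := by
    intro A
    obtain ⟨j, hj⟩ := hw.nonemptyE
    have hinj : Function.Injective (fun x : L A => (⟨Sum.inr (x.1, col j),
        Or.inr (Or.inl ⟨x.1, x.2, j, hj, rfl⟩)⟩ : D A)) := by
      intro x y hxy
      have := congrArg Subtype.val hxy
      simp only [Sum.inr.injEq, Prod.mk.injEq, and_true] at this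
      exact Subtype.ext this
    have := (hpos A).Linf.to_subtype
    exact Infinite.of_injective _ hinj
  have hτA : ∀ A, ∃ τ : Fin r → D A, ∀ j, j ∉ EE t₀ x₀ → j ∉ EE t₀ y₀ → (τ j).1 = t₀ j := by
    intro A
    have := hDi A
    obtain ⟨v⟩ : Nonempty (D A) := inferInstance
    refine ⟨fun j => if h : j ∉ EE t₀ x₀ ∧ j ∉ EE t₀ y₀ then ⟨t₀ j, Or.inl ⟨j, h.1, h.2, rfl⟩⟩
      else v, fun j h1 h2 => ?_⟩
    simp [h1, h2]
  choose τ hτ using hτA
  have hrec : ∀ A, codeSet A = {i | ∃ m ∈ inv (cD c (D A)) (EE t₀ x₀) (EE t₀ y₀) (τ A),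
      n i ≤ m ∧ m ≤ n i * C} := by
    intro A
    ext i
    constructor
    · intro hi
      obtain ⟨m, hm, h1, h2⟩ := inv_hit hw (hpos A) (τ A) (hτ A) hi (by
        rw [← Finset.card_pos, hcard]; exact hn0 i)
      rw [hcard] at h1 h2
      exact ⟨m, hm, h1, h2⟩
    · rintro ⟨m, hm, h1, h2⟩
      rcases inv_sizes hw (hpos A) (τ A) (hτ A) hm with h3 | ⟨i', hi', h3, h4⟩
      · have := hnC i
        rw [← hC] at h3
        omega
      · rw [hcard] at h3 h4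
        rw [hnuniq i i' m h1 h2 h3 h4]
        exact hi'
  refine pc_of_family c hS D (DD t₀ x₀ y₀ col (⋃ A, L A) M) (DD_countable _ _ _ _ _ _)
    (fun A => ?_) ?_ (fun A => Set.infinite_coe_iff.1 (hDi A)) (fun A => ?_)
  · rintro v (h | ⟨x, hx, j, hj, rfl⟩ | h)
    · exact Or.inl h
    · exact Or.inr (Or.inl ⟨x, Set.mem_iUnion.2 ⟨A, hx⟩, j, hj, rfl⟩)
    · exact Or.inr (Or.inr h)
  · have hL : ∀ x A, ∃ N : ℕ, ∀ B : ℕ → Bool, (∀ i < N, B i = A i) → (x ∈ L B ↔ x ∈ L A) := by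
      intro x A
      by_cases hx : ∃ i, x ∈ Gr i
      · obtain ⟨i, hi⟩ := hx
        have key : ∀ A, x ∈ L A ↔ i ∈ codeSet A := by
          intro A
          constructor
          · rintro ⟨i', hi', hx'⟩
            rw [huniq i i' x hi hx']; exact hi'
          · intro h
            exact ⟨i, h, hi⟩
        refine ⟨i + 1, fun B hB => ?_⟩
        rw [key, key]
        exact codeSet_loc i A B hB
      · refine ⟨0, fun B _ => ?_⟩
        constructor
        · rintro ⟨i, -, h⟩; exact absurd ⟨i, h⟩ hx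
        · rintro ⟨i, -, h⟩; exact absurd ⟨i, h⟩ hx
    rintro v A
    rcases hv : v with w | ⟨x, g⟩
    · refine ⟨0, fun B _ => ?_⟩
      constructor
      · rintro (h | ⟨x, hx, j, hj, h⟩ | ⟨x, hx, j, hj, h⟩)
        · exact Or.inl h
        · simp at h
        · simp at h
      · rintro (h | ⟨x, hx, j, hj, h⟩ | ⟨x, hx, j, hj, h⟩)
        · exact Or.inl h
        · simp at h
        · simp at h
    · obtain ⟨N, hN⟩ := hL x A
      refine ⟨N, fun B hB => ?_⟩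
      have h1 := hN B hB
      constructor
      · rintro (h | ⟨y, hy, j, hj, h⟩ | h)
        · exact Or.inl h
        · have hxy : x = y := by
            have := Sum.inr.inj h
            exact (Prod.mk.inj this).1
          subst hxy
          exact Or.inr (Or.inl ⟨x, h1.1 hy, j, hj, h⟩)
        · exact Or.inr (Or.inr h)
      · rintro (h | ⟨y, hy, j, hj, h⟩ | h)
        · exact Or.inl h
        · have hxy : x = y := by
            have := Sum.inr.inj h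
            exact (Prod.mk.inj this).1
          subst hxy
          exact Or.inr (Or.inl ⟨x, h1.2 hy, j, hj, h⟩)
        · exact Or.inr (Or.inr h)
  · have := hDc A
    refine Set.MapsTo.countable_of_injOn (f := fun B => if h : Isom (cD c (D A)) (cD c (D B)) then
      h.choose.symm ∘ τ B else τ A) (t := Set.univ) (fun _ _ => Set.mem_univ _) ?_
      Set.countable_univ
    intro B hB B' hB' hBB
    have hB : Isom (cD c (D A)) (cD c (D B)) := hB
    have hB' : Isom (cD c (D A)) (cD c (D B')) := hB'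
    simp only [dif_pos hB, dif_pos hB'] at hBB
    have h1 : ∀ (B) (hB : Isom (cD c (D A)) (cD c (D B))),
        inv (cD c (D A)) (EE t₀ x₀) (EE t₀ y₀) (hB.choose.symm ∘ τ B) =
          inv (cD c (D B)) (EE t₀ x₀) (EE t₀ y₀) (τ B) := by
      intro B hB
      rw [inv_iso hB.choose hB.choose_spec]
      congr 1
      funext j
      simp
    apply codeSet_inj
    rw [hrec B, hrec B', ← h1 B hB, ← h1 B' hB', hBB]

/-- full symmetry of the extension -/
theorem fullSym_ext' [Finite K] {p : Ultrafilter ℕ} {S : Str r K W'} {c : Str r K V} (hS : Cls S c)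
    (hC : ¬ PC S) : FullSym (Pool.Agent.H566V.ext (p := p) c) := by
  by_contra h
  exact hC (pc_of_not_fullSym (ext_patInv c) (hS.trans (cls_ext c)) h)

end Pool.Agent.H566W
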