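import Pool.Agent.H566V.Rows
import Pool.Agent.H566W.Order

/-!
The criterion for structures made of rows.
-/

set_option autoImplicit false

namespace Pool.Agent.H566W

open Filter Topology Pool.Agent.H566V

variable {r : ℕ} {K V G W' : Type}

variable {P : Finset V} {Z : ℕ → Finset G} {I : Set ℕ}

/-- The main criterion. -/
theorem pc_of_rows {S : Str r K W'} {c : Str r K (V ⊕ (ℚ × G))} (hc : FullSym c)
    (hS : Cls S c) (P : Finset V) (Z : ℕ → Finset G) (hZ : ∀ m, (Z m).Nonempty) (k₀ : ℕ)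
    (α β : ℕ → ℕ) (hk₀ : ∀ m, k₀ < α m) (hαβ : ∀ m m', m < m' → β m < α m')
    (H1 : ∀ (I : Set ℕ) (m k : ℕ), m ∈ I → ∀ X ⊆ RB P Z I m k, Ind (cD c (DI P Z I)) X →
      X.card ≤ k₀ ∨ (α m ≤ X.card ∧ X.card ≤ β m))
    (H2 : ∀ (I : Set ℕ) (m : ℕ), m ∈ I → ∃ k, ∃ X ⊆ RB P Z I m k, Ind (cD c (DI P Z I)) X ∧
      α m ≤ X.card) : PC S := by
  classical
  have hinf : ∀ A, (DI P Z (codeSet A)).Infinite := by
    intro A
    obtain ⟨m, hm⟩ := (codeSet_infinite A).nonempty
    obtain ⟨g, hg⟩ := hZ m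
    have hmem : ∀ k, (Sum.inr (nu m k, g) : V ⊕ (ℚ × G)) ∈ DI P Z (codeSet A) :=
      fun k => Or.inr ⟨m, hm, k, g, hg, rfl⟩
    have hinj : Function.Injective (fun k : ℕ => (⟨Sum.inr (nu m k, g), hmem k⟩ :
        TI P Z (codeSet A))) := by
      intro k k' hkk
      have := congrArg Subtype.val hkk
      simp only [Sum.inr.injEq, Prod.mk.injEq, and_true] at this
      exact (nu_inj this).2
    exact Set.infinite_coe_iff.1 (Infinite.of_injective _ hinj)
  have hloc : ∀ v A, ∃ N : ℕ, ∀ B : ℕ → Bool, (∀ i < N, B i = A i) →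
      (v ∈ DI P Z (codeSet B) ↔ v ∈ DI P Z (codeSet A)) := by
    intro v A
    by_cases hv : ∃ m k g, v = Sum.inr (nu m k, g)
    · obtain ⟨m, k, g, rfl⟩ := hv
      refine ⟨m + 1, fun B hB => ?_⟩
      have key : ∀ A, (Sum.inr (nu m k, g) : V ⊕ (ℚ × G)) ∈ DI P Z (codeSet A) ↔
          m ∈ codeSet A ∧ g ∈ Z m := by
        intro A
        constructor
        · rintro (⟨w, -, h⟩ | ⟨m', hm', k', g', hg', h⟩)
          · simp at h
          · rw [Sum.inr.injEq, Prod.mk.injEq] at h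
            obtain ⟨h1, rfl⟩ := h
            obtain ⟨rfl, rfl⟩ := nu_inj h1
            exact ⟨hm', hg'⟩
        · rintro ⟨hm, hg⟩
          exact Or.inr ⟨m, hm, k, g, hg, rfl⟩
      rw [key, key, codeSet_loc m A B hB]
    · refine ⟨0, fun B _ => ?_⟩
      constructor
      · rintro (h | ⟨m', hm', k', g', hg', h⟩)
        · exact Or.inl h
        · exact absurd ⟨m', k', g', h⟩ hv
      · rintro (h | ⟨m', hm', k', g', hg', h⟩)
        · exact Or.inl h
        · exact absurd ⟨m', k', g', h⟩ hv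
  refine pc_of_family c hS (fun A => DI P Z (codeSet A)) (DI P Z Set.univ)
    (Set.countable_coe_iff.1 (TI_countable P Z Set.univ)) (fun A => ?_) hloc hinf (fun A => ?_)
  · rintro v (h | ⟨m, hm, h⟩)
    · exact Or.inl h
    · exact Or.inr ⟨m, trivial, h⟩
  · have hsub : ∀ A n, n ∈ Siz (cD c (DI P Z (codeSet A))) →
        n ≤ k₀ ∨ ∃ m ∈ codeSet A, α m ≤ n ∧ n ≤ β m := by
      intro A n hn
      have hPfin : {v : TI P Z (codeSet A) | ∃ w ∈ P, v.1 = Sum.inl w}.Finite := by
        have h1 : ((P.image (fun w => (Sum.inl w : V ⊕ (ℚ × G))) : Finset _) :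
            Set (V ⊕ (ℚ × G))).Finite := Finset.finite_toSet _
        refine (h1.preimage (f := fun v : TI P Z (codeSet A) => v.1)
          Subtype.val_injective.injOn).subset ?_
        rintro v ⟨w, hw, hvw⟩
        exact Finset.mem_coe.2 (Finset.mem_image.2 ⟨w, hw, hvw.symm⟩)
      refine siz_subset (c := cD c (DI P Z (codeSet A))) hPfin.toFinset
        {B | ∃ m ∈ codeSet A, ∃ k, B = RB P Z (codeSet A) m k} ?_ ?_
        {n | n ≤ k₀ ∨ ∃ m ∈ codeSet A, α m ≤ n ∧ n ≤ β m} ?_ hn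
      · rintro B ⟨m, hm, k, rfl⟩
        exact ⟨_, fam_RB hc m k⟩
      · intro u hu
        have hu2 : u.1 ∈ DI P Z (codeSet A) := u.2
        rcases hu2 with ⟨w, hw, h⟩ | ⟨m, hm, k, g, hg, h⟩
        · exact absurd ((Set.Finite.mem_toFinset hPfin).2 (show _ ∈ {v : TI P Z (codeSet A) |
            ∃ w ∈ P, v.1 = Sum.inl w} from ⟨w, hw, h⟩)) hu
        · exact ⟨RB P Z (codeSet A) m k, ⟨m, hm, k, rfl⟩, mem_RB.2 (by rw [h]; rfl)⟩
      · rintro B ⟨m, hm, k, rfl⟩ Y hY hYi
        rcases H1 (codeSet A) m k hm Y hY hYi with h | h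
        · exact Or.inl h
        · exact Or.inr ⟨m, hm, h⟩
    have hsup : ∀ A m, m ∈ codeSet A → ∃ n ∈ Siz (cD c (DI P Z (codeSet A))),
        α m ≤ n ∧ n ≤ β m := by
      intro A m hm
      obtain ⟨k, X, hX, hXi, hXc⟩ := H2 (codeSet A) m hm
      refine ⟨X.card, ⟨X, hXi, rfl⟩, hXc, ?_⟩
      rcases H1 (codeSet A) m k hm X hX hXi with h | h
      · have := hk₀ m
        omega
      · exact h.2
    have hle : ∀ A B, Siz (cD c (DI P Z (codeSet A))) = Siz (cD c (DI P Z (codeSet B))) →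
        codeSet A ⊆ codeSet B := by
      intro A B hAB m hm
      obtain ⟨n, hn, h1, h2⟩ := hsup A m hm
      rw [hAB] at hn
      rcases hsub B n hn with h3 | ⟨m', hm', h3, h4⟩
      · have := hk₀ m
        omega
      · rcases lt_trichotomy m m' with h | h | h
        · have := hαβ m m' h
          omega
        · rw [h]; exact hm'
        · have := hαβ m' m h
          omega
    refine (Set.countable_singleton A).mono ?_
    intro B hB
    have hAB : Siz (cD c (DI P Z (codeSet A))) = Siz (cD c (DI P Z (codeSet B))) := siz_iso hB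
    exact (codeSet_inj (Set.Subset.antisymm (hle A B hAB) (hle B A hAB.symm))).symm

end Pool.Agent.H566W
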