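import Pool.Agent.H566V.Types2
import Pool.Agent.H566W.Rows

/-!
Finiteness of types over the generic rows.
-/

set_option autoImplicit false

namespace Pool.Agent.H566W

open Filter Topology Pool.Agent.H566V

variable {r : ℕ} {K V G W' : Type} {p : Ultrafilter ℕ}

theorem finTypes_ext' [Finite K] (hp : (p : Filter ℕ) ≤ atTop) {S : Str r K W'} {c : Str r K V}
    (hS : Cls S c) (hC : ¬ PC S) : FinTypes (ext (p := p) c) := by
  classical
  by_contra hnf
  unfold FinTypes at hnf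
  push Not at hnf
  obtain ⟨J, hJ⟩ := hnf
  obtain ⟨w, ρ, v, hv1, hv2⟩ := exists_seq (fun w ρ => ext (p := p) c (mix J w ρ)) hJ
  obtain ⟨v₀, hv₀⟩ := ulim p v
  set c1 := ext (p := p) c with hc1def
  set c2 := ext (p := p) c1 with hc2def
  have hc1 : FullSym c1 := fullSym_ext' hS hC
  have hS1 : Cls S c1 := hS.trans (cls_ext c)
  have hc2 : FullSym c2 := fullSym_ext' hS1 hC
  have hS2 : Cls S c2 := hS1.trans (cls_ext c1)
  apply hC
  -- columns
  have hA0 : ∀ j : Fin r, ∃ o : Option (E p V) × Option (Gm p (E p V)),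
      (∃ a, o.1 = some a ∧ o.2 = none ∧ ∀ x, eA p w x j = Sum.inl a) ∨
      (∃ g, o.1 = none ∧ o.2 = some g ∧ ∀ x, eA p w x j = Sum.inr (x, g)) := by
    intro j
    rcases el_cases (p := p) (fun l => (Sum.inl (w l j) : E p V)) with ⟨a, h1, -⟩ | ⟨g, h1, -⟩
    · exact ⟨(some a, none), Or.inl ⟨a, rfl, rfl, h1⟩⟩
    · exact ⟨(none, some g), Or.inr ⟨g, rfl, rfl, h1⟩⟩
  choose o ho using hA0
  have hB0 := fun i j => eB_inr hp ρ i j
  choose gb hgb _hgb2 using hB0
  let N : ℕ → ℕ := fun m => (3 * r + 3) ^ (m + 1)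
  have hN1 : ∀ m, 3 * r + 3 ≤ N m := fun m => Nat.le_self_pow (by omega) _
  have hNs : ∀ m m', m < m' → r + N m * r < N m' := by
    intro m m' h
    have h1 : N m * (3 * r + 3) ≤ N m' := by
      show (3 * r + 3) ^ (m + 1) * (3 * r + 3) ≤ (3 * r + 3) ^ (m' + 1)
      rw [← pow_succ]
      exact Nat.pow_le_pow_right (by omega) (by omega)
    have h2 := hN1 m
    nlinarith
  set P : Finset (E p V) := Finset.eraseNone (Finset.univ.image (fun j => (o j).1)) with hP
  set ZA : Finset (Gm p (E p V)) := Finset.eraseNone (Finset.univ.image (fun j => (o j).2)) with hZA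
  set Z : ℕ → Finset (Gm p (E p V)) := fun m => ZA ∪ ((Finset.range (N m)) ×ˢ
    (Finset.univ.filter (fun j => j ∉ J))).image (fun ij => gb ij.1 ij.2) with hZ
  have hmemP : ∀ a, a ∈ P ↔ ∃ j, (o j).1 = some a := by
    intro a
    rw [hP, Finset.mem_eraseNone, Finset.mem_image]
    simp
  have hmemZA : ∀ a, a ∈ ZA ↔ ∃ j, (o j).2 = some a := by
    intro a
    rw [hZA, Finset.mem_eraseNone, Finset.mem_image]
    simp
  have hmemZ : ∀ m g, g ∈ Z m ↔ (∃ j, (o j).2 = some g) ∨ ∃ i < N m, ∃ j, j ∉ J ∧ gb i j = g := by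
    intro m g
    rw [hZ]
    simp only [Finset.mem_union, hmemZA, Finset.mem_image, Finset.mem_product, Finset.mem_range,
      Finset.mem_filter, Finset.mem_univ, true_and, Prod.exists]
    constructor
    · rintro (h | ⟨i, j, ⟨h1, h2⟩, h3⟩)
      · exact Or.inl h
      · exact Or.inr ⟨i, h1, j, h2, h3⟩
    · rintro (h | ⟨i, h1, j, h2, h3⟩)
      · exact Or.inl h
      · exact Or.inr ⟨i, j, ⟨h1, h2⟩, h3⟩
  obtain ⟨j₁, hj₁⟩ : ∃ j₁, j₁ ∉ J := by
    by_contra hcon
    push Not at hcon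
    have h1 : mix J (w 0) (ρ 0) = mix J (w 0) (ρ 1) := by
      funext j
      rw [mix_mem (hcon j), mix_mem (hcon j)]
    have h2 := hv1 0
    have h3 := hv2 0 1 (by omega)
    rw [h1] at h2
    exact h2 h3
  -- description of the universe
  have hDA : ∀ (I : Set ℕ) (m k : ℕ) (j : Fin r), m ∈ I → eA p w (nu m k) j ∈ DI P Z I := by
    intro I m k j hm
    rcases ho j with ⟨a, h1, -, h3⟩ | ⟨g, -, h2, h3⟩
    · rw [h3]
      exact Or.inl ⟨a, (hmemP a).2 ⟨j, h1⟩, rfl⟩
    · rw [h3]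
      exact Or.inr ⟨m, hm, k, g, (hmemZ m g).2 (Or.inl ⟨j, h2⟩), rfl⟩
  have hDB : ∀ (I : Set ℕ) (m k i : ℕ) (j : Fin r), m ∈ I → i < N m → j ∉ J →
      eB ρ (nu m k) i j ∈ DI P Z I := by
    intro I m k i j hm hi hj
    rw [hgb]
    exact Or.inr ⟨m, hm, k, _, (hmemZ m _).2 (Or.inr ⟨i, hi, j, hj, rfl⟩), rfl⟩
  have hDd : ∀ (I : Set ℕ) (u : E p (E p V)), u ∈ DI P Z I → (∃ y j, u = eA p w y j) ∨
      ∃ m ∈ I, ∃ k, ∃ i < N m, ∃ j, j ∉ J ∧ u = eB ρ (nu m k) i j := by
    rintro I u (⟨a, ha, rfl⟩ | ⟨m, hm, k, g, hg, rfl⟩)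
    · obtain ⟨j, hj⟩ := (hmemP a).1 ha
      left
      rcases ho j with ⟨a', h1, -, h3⟩ | ⟨g, h1, -, -⟩
      · rw [hj] at h1
        refine ⟨0, j, ?_⟩
        rw [h3, Option.some.inj h1]
      · rw [hj] at h1; simp at h1
    · rcases (hmemZ m g).1 hg with ⟨j, hj⟩ | ⟨i, hi, j, hj, h⟩
      · left
        rcases ho j with ⟨a', -, h1, -⟩ | ⟨g', -, h1, h3⟩
        · rw [hj] at h1; simp at h1
        · rw [hj] at h1
          refine ⟨nu m k, j, ?_⟩
          rw [h3, Option.some.inj h1]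
      · right
        exact ⟨m, hm, k, i, hi, j, hj, by rw [hgb, h]⟩
  have hrowB : ∀ x i j, row (eB ρ x i j) = some x := fun x i j => by rw [hgb]; rfl
  have hDrow : ∀ (I : Set ℕ) (m k : ℕ) (u : TI P Z I), u ∈ RB P Z I m k →
      (∃ j, u.1 = eA p w (nu m k) j) ∨ ∃ i < N m, ∃ j, j ∉ J ∧ u.1 = eB ρ (nu m k) i j := by
    intro I m k u hu
    rw [mem_RB] at hu
    rcases hDd I u.1 u.2 with ⟨y, j, h⟩ | ⟨m', hm', k', i, hi, j, hj, h⟩
    · left
      refine ⟨j, ?_⟩
      rcases ho j with ⟨a', -, -, h3⟩ | ⟨g', -, -, h3⟩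
      · rw [h, h3] at hu; simp at hu
      · rw [h, h3, row_inr, Option.some.injEq] at hu
        rw [h, hu]
    · right
      rw [h, hrowB, Option.some.injEq] at hu
      obtain ⟨rfl, rfl⟩ := nu_inj hu
      exact ⟨i, hi, j, hj, h⟩
  -- the in-row permutations
  have hperm : ∀ (I : Set ℕ) (m k i₁ i₂ : ℕ), m ∈ I → i₁ < N m → i₂ < N m →
      ∃ s : TI P Z I → TI P Z I, Aut (cD c2 (DI P Z I)) s ∧ (∀ u, s (s u) = u) ∧
        ∀ u, (s u).1 = sΦ p V (nu m k) (Equiv.swap i₁ i₂) u.1 := by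
    intro I m k i₁ i₂ hm h1 h2
    have hπ : ∀ i, i < N m → Equiv.swap i₁ i₂ i < N m := by
      intro i hi
      by_cases h3 : i = i₁
      · rw [h3, Equiv.swap_apply_left]; exact h2
      · by_cases h4 : i = i₂
        · rw [h4, Equiv.swap_apply_right]; exact h1
        · rw [Equiv.swap_apply_of_ne_of_ne h3 h4]; exact hi
    have hmem : ∀ u ∈ DI P Z I, sΦ p V (nu m k) (Equiv.swap i₁ i₂) u ∈ DI P Z I := by
      intro u hu
      rcases hDd I u hu with ⟨y, j, h⟩ | ⟨m', hm', k', i, hi, j, hj, h⟩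
      · rw [h, sΦ_A, ← h]; exact hu
      · by_cases hx : nu m' k' = nu m k
        · obtain ⟨rfl, rfl⟩ := nu_inj hx
          rw [h, sΦ_B hp]
          exact hDB I _ _ _ _ hm (hπ i hi) hj
        · rw [h, sΦ_B_ne hp hx, ← h]; exact hu
    refine ⟨fun u => ⟨_, hmem u.1 u.2⟩, fun t => ?_, fun u => ?_, fun u => rfl⟩
    · refine sΦ_aut hp hc1 (w := w) (ρ := ρ) (nu m k) (Equiv.swap i₁ i₂) (fun l => (t l).1)
        (fun l => ?_)
      rcases hDd I (t l).1 (t l).2 with h | ⟨m', hm', k', i, hi, j, hj, h⟩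
      · exact Or.inl h
      · exact Or.inr ⟨_, _, _, h⟩
    · apply Subtype.ext
      show sΦ p V (nu m k) (Equiv.swap i₁ i₂) (sΦ p V (nu m k) (Equiv.swap i₁ i₂) u.1) = u.1
      rcases hDd I u.1 u.2 with ⟨y, j, h⟩ | ⟨m', hm', k', i, hi, j, hj, h⟩
      · rw [h, sΦ_A, sΦ_A]
      · by_cases hx : nu m' k' = nu m k
        · rw [h, hx, sΦ_B hp, sΦ_B hp, Equiv.swap_apply_self]
        · rw [h, sΦ_B_ne hp hx, sΦ_B_ne hp hx]
  -- indices of a block
  have hkey1 : ∀ (I : Set ℕ) (m k : ℕ), m ∈ I → ∀ X ⊆ RB P Z I m k,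
      Ind (cD c2 (DI P Z I)) X → ∀ i₁ i₂, i₁ ≠ i₂ →
      (∃ u ∈ X, ∃ j, j ∉ J ∧ u.1 = eB ρ (nu m k) i₁ j) →
      (∃ u ∈ X, ∃ j, j ∉ J ∧ u.1 = eB ρ (nu m k) i₂ j) → N m ≤ X.card := by
    intro I m k hm X hX hXi i₁ i₂ h12 h1 h2
    have hlt : ∀ i, (∃ u ∈ X, ∃ j, j ∉ J ∧ u.1 = eB ρ (nu m k) i j) → i < N m := by
      rintro i ⟨u, hu, j, hj, h⟩
      rcases hDrow I m k u (hX hu) with ⟨j', h'⟩ | ⟨i', hi', j', -, h'⟩
      · rw [h'] at h
        exact absurd h (eA_ne_eB hp)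
      · rw [h'] at h
        rw [← eB_inj hp h]; exact hi'
    have hall : ∀ i < N m, ∃ u ∈ X, ∃ j, j ∉ J ∧ u.1 = eB ρ (nu m k) i j := by
      intro i hi
      by_contra hno
      have hi1 : i ≠ i₁ := fun h => hno (h ▸ h1)
      have hi2 : i ≠ i₂ := fun h => hno (h ▸ h2)
      obtain ⟨s, hs1, hs2, hs3⟩ := hperm I m k i₁ i hm (hlt i₁ h1) hi
      have hX' := hXi.image hs1 hs2
      obtain ⟨u₂, hu₂, j₂, hj₂, hu₂'⟩ := h2
      have hfix : s u₂ = u₂ := by
        apply Subtype.ext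
        rw [hs3, hu₂', sΦ_B hp, Equiv.swap_apply_of_ne_of_ne h12.symm (Ne.symm hi2)]
      have hmem : u₂ ∈ X.image s := Finset.mem_image.2 ⟨u₂, hu₂, hfix⟩
      have heq := hXi.eq_of_mem hX' hu₂ hmem
      obtain ⟨u₁, hu₁, j₁', hj₁', hu₁'⟩ := h1
      apply hno
      refine ⟨s u₁, ?_, j₁', hj₁', ?_⟩
      · rw [heq]; exact Finset.mem_image_of_mem s hu₁
      · rw [hs3, hu₁', sΦ_B hp, Equiv.swap_apply_left]
    have hneT : Nonempty (TI P Z I) := ⟨hXi.1.choose⟩
    choose! f hf using hall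
    have := Finset.card_le_card_of_injOn (s := Finset.range (N m)) (t := X) f (fun i hi =>
      (hf i (Finset.mem_range.1 hi)).1) (fun i hi i' hi' hii => by
        obtain ⟨-, j, -, h⟩ := hf i (Finset.mem_range.1 hi)
        obtain ⟨-, j', -, h'⟩ := hf i' (Finset.mem_range.1 hi')
        rw [hii, h'] at h
        exact (eB_inj hp h).symm)
    rwa [Finset.card_range] at this
  refine pc_of_rows hc2 hS2 P Z (fun m => ⟨gb 0 j₁, (hmemZ m _).2 (Or.inr ⟨0, by
    have := hN1 m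
    omega, j₁, hj₁, rfl⟩)⟩) (2 * r) N (fun m => r + N m * r) (fun m => by
    have := hN1 m
    omega) hNs ?_ ?_
  · -- sizes of blocks
    intro I m k hm X hX hXi
    by_cases hex : ∃ i₁ i₂, i₁ ≠ i₂ ∧ (∃ u ∈ X, ∃ j, j ∉ J ∧ u.1 = eB ρ (nu m k) i₁ j) ∧
      (∃ u ∈ X, ∃ j, j ∉ J ∧ u.1 = eB ρ (nu m k) i₂ j)
    · right
      obtain ⟨i₁, i₂, h12, h1, h2⟩ := hex
      refine ⟨hkey1 I m k hm X hX hXi i₁ i₂ h12 h1 h2, ?_⟩
      refine (Finset.card_le_card hX).trans ?_
      rw [card_RB hm]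
      refine (Finset.card_union_le _ _).trans (Nat.add_le_add ?_ ?_)
      · have h3 : ZA.card ≤ (Finset.univ.image (fun j => (o j).2)).card := by
          rw [hZA]
          exact Finset.card_eraseNone_le _
        refine h3.trans (Finset.card_image_le.trans ?_)
        simp
      · refine Finset.card_image_le.trans ?_
        rw [Finset.card_product, Finset.card_range]
        refine Nat.mul_le_mul_left _ ((Finset.card_filter_le _ _).trans ?_)
        simp
    · left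
      push Not at hex
      obtain ⟨i₀, hi₀⟩ : ∃ i₀, ∀ i, (∃ u ∈ X, ∃ j, j ∉ J ∧ u.1 = eB ρ (nu m k) i j) → i = i₀ := by
        by_cases hany : ∃ i, ∃ u ∈ X, ∃ j, j ∉ J ∧ u.1 = eB ρ (nu m k) i j
        · obtain ⟨i₀, h0⟩ := hany
          refine ⟨i₀, fun i hi => ?_⟩
          by_contra hne
          obtain ⟨u, hu, j, hj, h⟩ := h0
          exact hex i i₀ hne hi u hu j hj h
        · push Not at hany
          exact ⟨0, fun i ⟨u, hu, j, hj, h⟩ => absurd h (hany i u hu j hj)⟩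
      have hsub : X.image (fun u => u.1) ⊆ Finset.univ.image (eA p w (nu m k)) ∪
          Finset.univ.image (eB ρ (nu m k) i₀) := by
        intro u hu
        obtain ⟨u', hu', rfl⟩ := Finset.mem_image.1 hu
        rcases hDrow I m k u' (hX hu') with ⟨j, h⟩ | ⟨i, hi, j, hj, h⟩
        · exact Finset.mem_union_left _ (Finset.mem_image.2 ⟨j, Finset.mem_univ _, h.symm⟩)
        · refine Finset.mem_union_right _ (Finset.mem_image.2 ⟨j, Finset.mem_univ _, ?_⟩)
          rw [h, hi₀ i ⟨u', hu', j, hj, h⟩]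
      have h1 := Finset.card_le_card hsub
      rw [Finset.card_image_of_injective _ Subtype.val_injective] at h1
      refine h1.trans ((Finset.card_union_le _ _).trans ?_)
      have h2 : (Finset.univ.image (eA p w (nu m k))).card ≤ r :=
        Finset.card_image_le.trans (by simp)
      have h3 : (Finset.univ.image (eB ρ (nu m k) i₀)).card ≤ r :=
        Finset.card_image_le.trans (by simp)
      omega
  · -- existence of a large block
    intro I m hm
    by_contra hcon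
    push Not at hcon
    set x := nu m 0 with hx
    have hsmall : ∀ X ⊆ RB P Z I m 0, Ind (cD c2 (DI P Z I)) X → ∀ i₁ i₂,
      (∃ u ∈ X, ∃ j, j ∉ J ∧ u.1 = eB ρ x i₁ j) →
      (∃ u ∈ X, ∃ j, j ∉ J ∧ u.1 = eB ρ x i₂ j) → i₁ = i₂ := by
      intro X hX hXi i₁ i₂ h1 h2
      by_contra hne
      exact absurd (hkey1 I m 0 hm X hX hXi i₁ i₂ hne h1 h2) (not_le.2 (hcon 0 X hX hXi))
    have hij : ∀ j : Fin r, ∃ i₀, ∀ X ⊆ RB P Z I m 0, Ind (cD c2 (DI P Z I)) X →
        (∃ u ∈ X, u.1 = eA p w x j) → ∀ i, (∃ u ∈ X, ∃ j, j ∉ J ∧ u.1 = eB ρ x i j) → i = i₀ := by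
      intro j
      by_cases hany : ∃ X ⊆ RB P Z I m 0, Ind (cD c2 (DI P Z I)) X ∧ (∃ u ∈ X, u.1 = eA p w x j) ∧
        ∃ i, (∃ u ∈ X, ∃ j, j ∉ J ∧ u.1 = eB ρ x i j)
      · obtain ⟨X, hX, hXi, ⟨u, hu, huj⟩, i₀, hi₀⟩ := hany
        refine ⟨i₀, fun X' hX' hXi' ⟨u', hu', hu'j⟩ i hi => ?_⟩
        have huu : u = u' := Subtype.ext (huj.trans hu'j.symm)
        have hXX : X = X' := hXi.eq_of_mem hXi' hu (huu ▸ hu')
        rw [← hXX] at hi
        exact hsmall X hX hXi i i₀ hi hi₀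
      · refine ⟨0, fun X' hX' hXi' hu' i hi => ?_⟩
        exact absurd ⟨X', hX', hXi', hu', i, hi⟩ hany
    choose ij hij using hij
    obtain ⟨i₀, hi₀, hi₀'⟩ : ∃ i₀ ∈ Finset.range (N m), i₀ ∉ Finset.univ.image ij := by
      apply Finset.exists_mem_notMem_of_card_lt_card
      refine lt_of_le_of_lt Finset.card_image_le ?_
      rw [Finset.card_range, Finset.card_univ, Fintype.card_fin]
      have := hN1 m
      omega
    rw [Finset.mem_range] at hi₀
    have hi₀'' : ∀ j, i₀ ≠ ij j := fun j h => hi₀' (Finset.mem_image.2 ⟨j, Finset.mem_univ _, h.symm⟩)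
    set Bi : Finset (TI P Z I) := (RB P Z I m 0).filter (fun u => ∃ j, j ∉ J ∧ u.1 = eB ρ x i₀ j)
      with hBi
    have hfam : ∀ 𝒳 : Finset (Finset (TI P Z I)), (∀ X ∈ 𝒳, Blk (cD c2 (DI P Z I)) X) →
        Fam (cD c2 (DI P Z I)) (RB P Z I m 0 \ 𝒳.biUnion id) (hD m 0) := by
      intro 𝒳
      induction 𝒳 using Finset.induction with
      | empty =>
        intro _
        simpa using fam_RB hc2 m 0
      | insert X 𝒳 _ ih =>
        intro h
        have h1 := ih (fun Y hY => h Y (Finset.mem_insert_of_mem hY))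
        obtain ⟨g, hg⟩ := h X (Finset.mem_insert_self _ _)
        have h2 := h1.sdiff hg
        have h3 : RB P Z I m 0 \ (insert X 𝒳).biUnion id = (RB P Z I m 0 \ 𝒳.biUnion id) \ X := by
          ext u
          simp only [Finset.mem_sdiff, Finset.mem_biUnion, Finset.mem_insert, id]
          constructor
          · rintro ⟨h1, h2⟩
            exact ⟨⟨h1, fun ⟨Y, hY, hu⟩ => h2 ⟨Y, Or.inr hY, hu⟩⟩, fun hu => h2 ⟨X, Or.inl rfl, hu⟩⟩
          · rintro ⟨⟨h1, h2⟩, h3⟩
            refine ⟨h1, ?_⟩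
            rintro ⟨Y, rfl | hY, hu⟩
            · exact h3 hu
            · exact h2 ⟨Y, hY, hu⟩
        rw [h3]
        exact h2
    have hBiblk : Blk (cD c2 (DI P Z I)) Bi := by
      have h1 := hfam ((RB P Z I m 0).powerset.filter (fun X => Ind (cD c2 (DI P Z I)) X ∧
        ¬ X ⊆ Bi)) (fun X hX => (Finset.mem_filter.1 hX).2.1.2.1)
      have h2 : RB P Z I m 0 \ ((RB P Z I m 0).powerset.filter (fun X =>
          Ind (cD c2 (DI P Z I)) X ∧ ¬ X ⊆ Bi)).biUnion id = Bi := by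
        ext u
        simp only [Finset.mem_sdiff, Finset.mem_biUnion, Finset.mem_filter, Finset.mem_powerset, id]
        constructor
        · rintro ⟨h1, h2⟩
          by_contra huB
          obtain ⟨X, hX, huX, hXi⟩ := Blk.exists_ind ⟨_, fam_RB hc2 m 0⟩ h1
          exact h2 ⟨X, ⟨hX, hXi, fun h => huB (h huX)⟩, huX⟩
        · intro huB
          refine ⟨(Finset.mem_filter.1 huB).1, ?_⟩
          rintro ⟨X, ⟨hX, hXi, hXB⟩, huX⟩
          obtain ⟨j, hj, huj⟩ := (Finset.mem_filter.1 huB).2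
          apply hXB
          intro u' hu'
          rcases hDrow I m 0 u' (hX hu') with ⟨j', h⟩ | ⟨i, hi, j', hj', h⟩
          · exact absurd (hij j' X hX hXi ⟨u', hu', h⟩ i₀ ⟨u, huX, j, hj, huj⟩) (hi₀'' j')
          · have : i = i₀ := hsmall X hX hXi i i₀ ⟨u', hu', j', hj', h⟩ ⟨u, huX, j, hj, huj⟩
            rw [this] at h
            exact Finset.mem_filter.2 ⟨hX hu', j', hj', h⟩
      rw [h2] at h1
      exact ⟨_, h1⟩
    have haut := sepD_of_blk hc2 (Finset.filter_subset _ _) hBiblk 0 1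
    set y := nu m 1 with hy
    have hxy : x < y := by
      show ((Nat.pair m 0 : ℕ) : ℚ) < ((Nat.pair m 1 : ℕ) : ℚ)
      exact_mod_cast Nat.pair_lt_pair_right m (by omega)
    let t : Fin r → E p (E p V) := fun j => if j ∈ J then eA p w x j else eB ρ x i₀ j
    have ht : ∀ j, t j ∈ DI P Z I := by
      intro j
      simp only [t]
      split_ifs with hj
      · exact hDA I m 0 j hm
      · exact hDB I m 0 i₀ j hm hi₀ hj
    have e1 := haut t ht
    have e2 : sw (colsOf m 0 Bi) (nu m 0) (nu m 1) ∘ t =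
        fun j => if j ∈ J then eA p w x j else eB ρ y i₀ j := by
      funext j
      simp only [Function.comp, t]
      split_ifs with hj
      · rcases ho j with ⟨a', -, -, h3⟩ | ⟨g', -, -, h3⟩
        · rw [h3, sw_inl]
        · rw [h3, sw_notMem]
          rintro ⟨u, hu, hug⟩
          obtain ⟨j', hj', hu'⟩ := (Finset.mem_filter.1 hu).2
          rw [hu', ← hx, ← h3] at hug
          exact eA_ne_eB hp hug.symm
      · rw [hgb, hgb, sw_mem, Equiv.swap_apply_left]
        refine ⟨⟨eB ρ x i₀ j, hDB I m 0 i₀ j hm hi₀ hj⟩, ?_, ?_⟩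
        · exact Finset.mem_filter.2 ⟨mem_RB.2 (hrowB _ _ _), j, hj, rfl⟩
        · exact hgb _ _ _
    rw [e2] at e1
    -- value of `t`
    have e3 : c2 t ≠ v₀ := by
      intro h
      have h1 := ext_el' (p := p) c1 (fun _ => x) (fun j l => if j ∈ J then (Sum.inl (w l j) : E p V)
        else Sum.inr (kap l i₀ (ρ l j).1, (ρ l j).2))
      have h2 : (fun j => (el x (fun l => if j ∈ J then (Sum.inl (w l j) : E p V)
        else Sum.inr (kap l i₀ (ρ l j).1, (ρ l j).2)) : E p (E p V))) = t := by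
        funext j
        simp only [t]
        split_ifs with hj
        · rfl
        · rfl
      rw [h2] at h1
      have h3 := (ev_W_single (p := p) x (fun l => v l = v₀)).2 hv₀
      obtain ⟨ω, h4, h5⟩ := (h1.and h3).exists
      have h6 : c1 (fun j => if j ∈ J then (Sum.inl (w (ω x) j) : E p V)
          else Sum.inr (kap (ω x) i₀ (ρ (ω x) j).1, (ρ (ω x) j).2)) =
          c1 (mix J (w (ω x)) (ρ (ω x))) := by
        have h7 := hc1 (mix J (w (ω x)) (ρ (ω x))) (kap (ω x) i₀)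
          (fun a _ b _ hab => (kap_inj hab).2.2)
        rw [← h7]
        congr 1
        funext j
        simp only [Function.comp]
        split_ifs with hj
        · rw [mix_mem hj, mv_inl]
        · rw [mix_notMem hj, mv_inr]
      rw [h6] at h4
      apply hv1 (ω x)
      show c1 (mix J (w (ω x)) (ρ (ω x))) = v (ω x)
      rw [h4, h5]
      exact h
    have e4 : c2 (fun j => if j ∈ J then eA p w x j else eB ρ y i₀ j) = v₀ := by
      have h2 : (fun j => (el (if j ∈ J then x else y) (fun l => if j ∈ J then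
          (Sum.inl (w l j) : E p V) else Sum.inr (kap l i₀ (ρ l j).1, (ρ l j).2)) :
          E p (E p V))) = (fun j => if j ∈ J then eA p w x j else eB ρ y i₀ j) := by
        funext j
        split_ifs with hj
        · rfl
        · rfl
      rw [← h2]
      apply ext_el
      have h3 := (ev_W_single (p := p) x (fun l => v l = v₀)).2 hv₀
      filter_upwards [h3, omega_lt hp hxy] with ω h5 h6
      have h8 : c1 (fun j => if j ∈ J then (Sum.inl (w (ω (if j ∈ J then x else y)) j) : E p V)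
          else Sum.inr (kap (ω (if j ∈ J then x else y)) i₀ (ρ (ω (if j ∈ J then x else y)) j).1,
            (ρ (ω (if j ∈ J then x else y)) j).2)) =
          c1 (mix J (w (ω x)) (ρ (ω y))) := by
        have h7 := hc1 (mix J (w (ω x)) (ρ (ω y))) (kap (ω y) i₀)
          (fun a _ b _ hab => (kap_inj hab).2.2)
        rw [← h7]
        congr 1
        funext j
        simp only [Function.comp]
        split_ifs with hj
        · rw [mix_mem hj, mv_inl]
        · rw [mix_notMem hj, mv_inr]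
      rw [h8, ← h5]
      exact hv2 _ _ h6
    exact e3 (e1 ▸ e4)

end Pool.Agent.H566W
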