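import Pool.Agent.H566V.Unb
import Pool.Agent.H566W.Rows

/-!
Indecomposable sets of columns of unbounded size.
-/

set_option autoImplicit false

namespace Pool.Agent.H566W

open Filter Topology Pool.Agent.H566V

variable {r : ℕ} {K V G W' : Type}

theorem pc_of_unbounded [Finite K] [Nonempty V] {S : Str r K W'}
    {c : Str r K (V ⊕ (ℚ × G))} (hc : FullSym c) (hS : Cls S c) (hfin : FinTypes c)
    (hunb : ∀ k : ℕ, ∃ C : Finset G, Indec c C ∧ k < C.card) : PC S := by
  classical
  obtain ⟨P, hP⟩ := hfin.exists_finset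
  choose f hf1 hf2 using hunb
  obtain ⟨Z, hZ0, hZs⟩ : ∃ Z : ℕ → Finset G, Z 0 = f 0 ∧ ∀ m, Z (m + 1) = f (Z m).card :=
    ⟨fun m => Nat.rec (f 0) (fun _ z => f z.card) m, rfl, fun _ => rfl⟩
  have hZi : ∀ m, Indec c (Z m) := by
    intro m
    cases m with
    | zero => rw [hZ0]; exact hf1 0
    | succ m => rw [hZs]; exact hf1 _
  have hZm : StrictMono (fun m => (Z m).card) := by
    apply strictMono_nat_of_lt_succ
    intro m
    show (Z m).card < (Z (m + 1)).card
    rw [hZs]
    exact hf2 _
  have hG : Nonempty G := ⟨(hZi 0).1.choose⟩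
  have key : ∀ (I : Set ℕ) (m k : ℕ), m ∈ I → ∀ X ⊆ RB P Z I m k, Ind (cD c (DI P Z I)) X →
      X = RB P Z I m k := by
    intro I m k hm X hX hXi
    have hsep := sepD_of_blk hc hX hXi.2.1
    have hcz : colsOf m k X ⊆ (Z m : Set G) := by
      rintro g ⟨v, hv, hvg⟩
      obtain ⟨-, g', hg', h⟩ := mem_RB' (hX hv)
      rw [hvg, Sum.inr.injEq, Prod.mk.injEq] at h
      rw [h.2]; exact hg'
    set Y : Finset G := (Z m).filter (fun g => g ∈ colsOf m k X) with hY
    have hYc : (Y : Set G) = colsOf m k X := by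
      ext g
      rw [hY, Finset.mem_coe, Finset.mem_filter]
      exact ⟨fun h => h.2, fun h => ⟨hcz h, h⟩⟩
    have hYsep : Sep c (Z m : Set G) (Y : Set G) := by
      intro x y t ht
      by_cases hxy : x = y
      · subst hxy
        congr 1
        funext j
        simp only [Function.comp]
        rcases t j with a | ⟨z, g⟩
        · rfl
        · by_cases hg : g ∈ (Y : Set G)
          · rw [sw_mem _ _ hg]; simp
          · rw [sw_notMem _ _ hg]
      let f : ℚ → ℚ := fun u => if u = x then nu m 0 else if u = y then nu m 1 else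
        nu m (Encodable.encode u + 2)
      have hfx : f x = nu m 0 := by simp [f]
      have hfy : f y = nu m 1 := by simp [f, Ne.symm hxy]
      have hfo : ∀ u, ∃ l, f u = nu m l := by
        intro u
        simp only [f]
        split_ifs
        · exact ⟨_, rfl⟩
        · exact ⟨_, rfl⟩
        · exact ⟨_, rfl⟩
      have hfinj : Function.Injective f := by
        intro u v huv
        simp only [f] at huv
        split_ifs at huv with h1 h2 h3 h4 h5 h6 h7 h8
        · rw [h1, h2]
        · exact absurd (nu_inj huv).2 (by omega)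
        · exact absurd (nu_inj huv).2 (by omega)
        · exact absurd (nu_inj huv).2 (by omega)
        · rw [h4, h6]
        · exact absurd (nu_inj huv).2 (by omega)
        · exact absurd (nu_inj huv).2 (by omega)
        · exact absurd (nu_inj huv).2 (by omega)
        · exact Encodable.encode_injective (by have := (nu_inj huv).2; omega)
      have e1 : c (mv f ∘ t) = c t := hc t f hfinj.injOn
      have e2 : c (mv f ∘ (sw Y x y ∘ t)) = c (sw Y x y ∘ t) := hc _ f hfinj.injOn
      have e3 : mv f ∘ (sw Y x y ∘ t) = sw Y (nu m 0) (nu m 1) ∘ (mv f ∘ t) := by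
        funext j
        simp only [Function.comp]
        rcases t j with a | ⟨z, g⟩
        · rfl
        · by_cases hg : g ∈ (Y : Set G)
          · rw [sw_mem _ _ hg, mv_inr, mv_inr, sw_mem _ _ hg, ← hfx, ← hfy, hfinj.swap_apply]
          · rw [sw_notMem _ _ hg, mv_inr, sw_notMem _ _ hg]
      obtain ⟨J, w, ρ, hJ⟩ := exists_mix (mv f ∘ t)
      obtain ⟨w', hw1, hw2⟩ := hP J w
      have hρ : ∀ j, j ∉ J → ∃ l, ∃ g ∈ Z m, ρ j = (nu m l, g) := by
        intro j hj
        have h1 := congrFun hJ j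
        rw [mix_notMem hj] at h1
        simp only [Function.comp] at h1
        rcases hj' : t j with a | ⟨z, g⟩
        · rw [hj'] at h1; simp at h1
        · rw [hj', mv_inr, Sum.inr.injEq] at h1
          obtain ⟨l, hl⟩ := hfo z
          refine ⟨l, g, ?_, by rw [← h1, hl]⟩
          exact ht j z g hj'
      have hsw : ∀ w'' : Fin r → V, sw Y (nu m 0) (nu m 1) ∘ mix J w'' ρ =
          mix J w'' (fun j => if (ρ j).2 ∈ Y then (Equiv.swap (nu m 0) (nu m 1) (ρ j).1, (ρ j).2)
            else ρ j) := by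
        intro w''
        funext j
        simp only [Function.comp]
        by_cases hj : j ∈ J
        · rw [mix_mem hj, mix_mem hj, sw_inl]
        · rw [mix_notMem hj, mix_notMem hj]
          rcases ρ j with ⟨z, g⟩
          by_cases hg : g ∈ Y
          · rw [sw_mem _ _ (Finset.mem_coe.2 hg), if_pos hg]
          · rw [sw_notMem _ _ (fun h => hg (Finset.mem_coe.1 h)), if_neg hg]
      have hmemD : ∀ j, mix J w' ρ j ∈ DI P Z I := by
        intro j
        by_cases hj : j ∈ J
        · rw [mix_mem hj]; exact Or.inl ⟨_, hw1 j, rfl⟩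
        · rw [mix_notMem hj]
          obtain ⟨l, g, hg, h⟩ := hρ j hj
          rw [h]
          exact Or.inr ⟨m, hm, l, g, hg, rfl⟩
      have e4 := hsep 0 1 (mix J w' ρ) hmemD
      rw [← hYc, hsw, hw2, hw2] at e4
      rw [← e2, e3, ← e1, hJ, hsw, e4]
    have hYne : Y.Nonempty := by
      obtain ⟨v, hv⟩ := hXi.1
      obtain ⟨-, g, hg, h⟩ := mem_RB' (hX hv)
      exact ⟨g, Finset.mem_filter.2 ⟨hg, v, hv, h⟩⟩
    have hYZ := (hZi m).2 Y (Finset.filter_subset _ _) hYne hYsep
    refine Finset.Subset.antisymm hX (fun v hv => ?_)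
    obtain ⟨-, g, hg, h⟩ := mem_RB' hv
    rw [← hYZ, hY, Finset.mem_filter] at hg
    obtain ⟨v', hv', h'⟩ := hg.2
    have : v = v' := Subtype.ext (by rw [h, h'])
    rw [this]; exact hv'
  refine pc_of_rows hc hS P Z (fun m => (hZi m).1) 0 (fun m => (Z m).card) (fun m => (Z m).card)
    (fun m => Finset.card_pos.2 (hZi m).1) (fun m m' h => hZm h) ?_ ?_
  · intro I m k hm X hX hXi
    right
    rw [key I m k hm X hX hXi, card_RB hm]
    exact ⟨le_rfl, le_rfl⟩
  · intro I m hm
    obtain ⟨g, hg⟩ := (hZi m).1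
    have hv : (⟨Sum.inr (nu m 0, g), Or.inr ⟨m, hm, 0, g, hg, rfl⟩⟩ : TI P Z I) ∈
        RB P Z I m 0 := mem_RB.2 rfl
    obtain ⟨X, hX, -, hXi⟩ := (Blk.exists_ind ⟨_, fam_RB hc m 0⟩ hv)
    refine ⟨0, X, hX, hXi, ?_⟩
    rw [key I m 0 hm X hX hXi, card_RB hm]

end Pool.Agent.H566W
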