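import Pool.Agent.H566V.Count
import Pool.Agent.H566W.Unb
import Pool.Agent.H566W.Types2

/-!
The dichotomy.
-/

set_option autoImplicit false

namespace Pool.Agent.H566W

open Filter Topology Pool.Agent.H566V

variable {r : ℕ} {K V G W' : Type}

/-- The main dichotomy. -/
theorem isDec_or_pc [Finite K] (S : Str r K ℕ) : IsDec S ∨ PC S := by
  classical
  by_cases hC : PC S
  · exact Or.inr hC
  left
  set p : Ultrafilter ℕ := Filter.hyperfilter ℕ with hpdef
  have hp : (p : Filter ℕ) ≤ atTop := Nat.hyperfilter_le_atTop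
  have hS : Cls S S := Cls.refl S
  have h1 : FullSym (ext (p := p) S) := fullSym_ext' hS hC
  have h2 : SubP (ext (p := p) S) := ext_subP h1
  have h3 : FinTypes (ext (p := p) S) := finTypes_ext' hp hS hC
  obtain ⟨k, hk⟩ : ∃ k : ℕ, ∀ C : Finset (Gm p ℕ), Indec (ext (p := p) S) C → C.card ≤ k := by
    by_contra hcon
    push Not at hcon
    exact hC (pc_of_unbounded h1 (cls_ext S) h3 hcon)
  apply exists_dec hp
  intro z
  obtain ⟨C, hzC, hC'⟩ := exists_sep_univ h1 h2 k hk z
  refine ⟨C, hzC, ?_⟩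
  filter_upwards [ev_injAt C, ev_exn_aut h1 C hC'] with n h4 h5
  exact ⟨h4, h5⟩

end Pool.Agent.H566W
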