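import Pool.Agent.H566V.Closed
import Pool.Agent.H566W.Count

/-!
Closed classes.
-/

set_option autoImplicit false

namespace Pool.Agent.H566W

open Filter Topology Pool.Agent.H566V

variable {r : ℕ} {Col : Type}

/-- a continuous family of structures with countable isomorphism classes -/
def PBig [TopologicalSpace Col] (B : Set (Str r Col ℕ)) : Prop :=
  ∃ g : (ℕ → Bool) → Str r Col ℕ, Continuous g ∧ (∀ A, g A ∈ B) ∧
    ∀ A, {A' | Isom (g A) (g A')}.Countable

theorem LC.continuous [TopologicalSpace Col] {g : (ℕ → Bool) → Str r Col ℕ} (h : LC g) :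
    Continuous g := by
  refine continuous_pi fun t => ?_
  rw [continuous_iff_continuousAt]
  intro A
  obtain ⟨N, hN⟩ := h t A
  have hev : ∀ᶠ B in 𝓝 A, ∀ i ∈ Finset.range N, B i = A i := by
    rw [Filter.eventually_all_finset]
    intro i _
    have hc : ContinuousAt (fun B : ℕ → Bool => B i) A := (continuous_apply i).continuousAt
    have : {A i} ∈ 𝓝 (A i) := by simp
    filter_upwards [hc this] with B hB
    simpa using hB
  have : (fun B => g B t) =ᶠ[𝓝 A] fun _ => g A t := by
    filter_upwards [hev] with B hB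
    exact hN B (fun i hi => hB i (Finset.mem_range.2 hi))
  exact continuousAt_const.congr this.symm

/-- constant or injective coordinates -/
theorem exists_subseq (u : ℕ → Fin r → ℕ) (s : Finset (Fin r)) :
    ∃ φ : ℕ → ℕ, StrictMono φ ∧ ∀ j ∈ s, (∀ l l', u (φ l) j = u (φ l') j) ∨
      Function.Injective (fun l => u (φ l) j) := by
  classical
  induction s using Finset.induction with
  | empty => exact ⟨id, strictMono_id, fun j hj => absurd hj (Finset.notMem_empty j)⟩
  | insert j₀ s _ ih =>
    obtain ⟨φ, hφ, hφ2⟩ := ih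
    obtain ⟨g, hg⟩ := exists_increasing_or_nonincreasing_subseq (fun a b : ℕ => a = b)
      (fun l => u (φ l) j₀)
    refine ⟨fun l => φ (g l), hφ.comp g.strictMono, fun j hj => ?_⟩
    rcases Finset.mem_insert.1 hj with rfl | hj
    · rcases hg with hg | hg
      · left
        intro l l'
        rcases lt_trichotomy l l' with h | h | h
        · exact hg l l' h
        · rw [h]
        · exact (hg l' l h).symm
      · right
        intro l l' hll
        rcases lt_trichotomy l l' with h | h | h
        · exact absurd hll (hg l l' h)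
        · exact h
        · exact absurd hll.symm (hg l' l h)
    · rcases hφ2 j hj with h | h
      · exact Or.inl (fun l l' => h _ _)
      · exact Or.inr (fun l l' hll => g.injective (h hll))

/-- infinitely many colours -/
theorem pbig_of_infinite [TopologicalSpace Col] {B : Set (Str r Col ℕ)} (hc : IsClosed B)
    (hB : PInv B) {c : Str r Col ℕ} (hcB : c ∈ B) (hinf : (Set.range c).Infinite) : PBig B := by
  classical
  obtain ⟨v₀, hv1₀, hv2₀⟩ := exists_free c hinf
  obtain ⟨φ, hφ, hφ2⟩ := exists_subseq v₀ Finset.univ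
  let v : ℕ → Fin r → ℕ := fun l => v₀ (φ l)
  have hv1 : ∀ l l', c (v l) = c (v l') → l = l' := fun l l' h => hφ.injective (hv1₀ _ _ h)
  have hv2 : ∀ (x : Fin r → ℕ) (σ : Fin r → Fin r) (l : ℕ),
      c (fun j => v (x j) (σ j)) = c (v l) → ∃ j, x j = l := by
    intro x σ l h
    obtain ⟨j, hj⟩ := hv2₀ (fun j => φ (x j)) σ (φ l) h
    exact ⟨j, hφ.injective hj⟩
  let D : (ℕ → Bool) → Set ℕ := fun A => {n | ∃ l ∈ codeSet A, ∃ j, n = v l j}
  have hDinf : ∀ A, (D A).Infinite := by
    intro A hfin
    have h1 : {t : Fin r → ℕ | ∀ j, t j ∈ D A}.Finite :=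
      Set.Finite.pi' (t := fun _ : Fin r => D A) (fun _ => hfin)
    apply codeSet_infinite A
    refine Set.Finite.of_injOn (f := v) (t := {t : Fin r → ℕ | ∀ j, t j ∈ D A}) ?_ ?_ h1
    · intro l hl j
      exact ⟨l, hl, j, rfl⟩
    · intro l _ l' _ h
      exact hv1 l l' (by rw [h])
  have hloc : ∀ n A, ∃ N : ℕ, ∀ B : ℕ → Bool, (∀ i < N, B i = A i) → (n ∈ D B ↔ n ∈ D A) := by
    intro n A
    by_cases hcst : ∃ j, (∀ l l', v l j = v l' j) ∧ v 0 j = n
    · obtain ⟨j, hj, hjn⟩ := hcst
      have key : ∀ A, n ∈ D A := by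
        intro A
        obtain ⟨l, hl⟩ := (codeSet_infinite A).nonempty
        exact ⟨l, hl, j, by rw [← hjn]; exact hj 0 l⟩
      exact ⟨0, fun B _ => ⟨fun _ => key A, fun _ => key B⟩⟩
    · push Not at hcst
      have hfin : {l : ℕ | ∃ j, n = v l j}.Finite := by
        have h1 : {l : ℕ | ∃ j, n = v l j} ⊆ ⋃ j : Fin r, {l | n = v l j} := by
          rintro l ⟨j, hj⟩
          exact Set.mem_iUnion.2 ⟨j, hj⟩
        refine (Set.finite_iUnion fun j => ?_).subset h1
        rcases hφ2 j (Finset.mem_univ j) with h2 | h2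
        · refine Set.finite_empty.subset ?_
          intro l hl
          have hl : n = v l j := hl
          exact hcst j h2 (by rw [hl]; exact h2 0 l)
        · refine Set.Subsingleton.finite ?_
          intro l hl l' hl'
          have hl : n = v l j := hl
          have hl' : n = v l' j := hl'
          exact h2 (hl.symm.trans hl')
      refine ⟨hfin.toFinset.sup (fun l => l + 1), fun B hB => ?_⟩
      have key : ∀ l, (∃ j, n = v l j) → (l ∈ codeSet B ↔ l ∈ codeSet A) := by
        intro l hl
        apply codeSet_loc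
        intro k hk
        apply hB
        refine lt_of_lt_of_le hk ?_
        exact Finset.le_sup (f := fun l => l + 1) (hfin.mem_toFinset.2 hl)
      constructor
      · rintro ⟨l, hl, j, hj⟩
        exact ⟨l, (key l ⟨j, hj⟩).1 hl, j, hj⟩
      · rintro ⟨l, hl, j, hj⟩
        exact ⟨l, (key l ⟨j, hj⟩).2 hl, j, hj⟩
  have hg : ∀ A l, c (v l) ∈ Set.range (rs c (D A)) ↔ l ∈ codeSet A := by
    intro A l
    constructor
    · rintro ⟨t, ht⟩
      have h1 : ∀ j, ∃ x ∈ codeSet A, ∃ i, (t j).1 = v x i := fun j => (t j).2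
      choose x hx σ hσ using h1
      have h2 : c (fun j => v (x j) (σ j)) = c (v l) := by
        rw [← ht]
        show _ = c (fun j => (t j).1)
        congr 1
        funext j
        rw [hσ]
      obtain ⟨j, hj⟩ := hv2 x σ l h2
      rw [← hj]
      exact hx j
    · intro hl
      exact ⟨fun j => ⟨v l j, l, hl, j, rfl⟩, rfl⟩
  have hpc : PC c := by
    refine pc_of_family c (Cls.refl c) D Set.univ (Set.countable_univ) (fun A => Set.subset_univ _)
      hloc hDinf (fun A => ?_)
    refine (Set.countable_singleton A).mono ?_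
    rintro B ⟨e, he⟩
    have hr : Set.range (rs c (D A)) = Set.range (rs c (D B)) := by
      ext k
      constructor
      · rintro ⟨t, rfl⟩
        exact ⟨e ∘ t, he t⟩
      · rintro ⟨t, rfl⟩
        refine ⟨e.symm ∘ t, ?_⟩
        rw [← he]
        congr 1
        funext j
        simp
    apply codeSet_inj
    ext l
    rw [← hg, ← hg, hr]
  obtain ⟨g, hg1, hg2, hg3⟩ := hpc
  exact ⟨g, hg1.continuous, fun A => mem_of_cls hc hB hcB (hg2 A), hg3⟩

theorem pbig_of_pc [TopologicalSpace Col] {B : Set (Str r Col ℕ)} (hc : IsClosed B)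
    (hB : PInv B) {m : ℕ} {κ : Fin m → Col} (hκ : Function.Injective κ)
    {S : Str r (Fin m) ℕ} (hS : (fun t => κ (S t)) ∈ B) (hC : PC S) : PBig B := by
  obtain ⟨g, hg0, hg1, hg2⟩ := hC
  have hlc : LC (fun A t => κ (g A t)) := by
    intro t A
    obtain ⟨N, hN⟩ := hg0 t A
    exact ⟨N, fun B hB => congrArg κ (hN B hB)⟩
  refine ⟨fun A t => κ (g A t), hlc.continuous, fun A => ?_, fun A => ?_⟩
  · refine mem_of_cls hc hB hS (fun F => ?_)
    obtain ⟨e, he1, he2⟩ := hg1 A F
    exact ⟨e, he1, fun t ht => congrArg κ (he2 t ht)⟩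
  · refine (hg2 A).mono ?_
    rintro A' ⟨e, he⟩
    exact ⟨e, fun t => hκ (he t)⟩

theorem pbig_of_uncountable [TopologicalSpace Col] [PolishSpace Col] {B : Set (Str r Col ℕ)}
    (hc : IsClosed B) {m : ℕ} {S : Str r (Fin m) ℕ} (hS : Function.Surjective S)
    (hX : ¬ {κ : Fin m → Col | (fun t => κ (S t)) ∈ B}.Countable) : PBig B := by
  classical
  have hcl : IsClosed {κ : Fin m → Col | (fun t => κ (S t)) ∈ B} := by
    apply hc.preimage
    apply continuous_pi
    intro t
    exact continuous_apply (S t)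
  obtain ⟨f, hf1, hf0, hf2⟩ := hcl.exists_nat_bool_injection_of_not_countable hX
  refine ⟨fun A t => f A (S t), continuous_pi fun t => (continuous_apply (S t)).comp hf0,
    fun A => hf1 ⟨A, rfl⟩, fun A => ?_⟩
  have hfin : {κ : Fin m → Col | ∀ i, κ i ∈ Set.range (f A)}.Finite :=
    Set.Finite.pi' (t := fun _ : Fin m => Set.range (f A)) (fun _ => Set.finite_range _)
  refine ((hfin.preimage (f := f) hf2.injOn).subset ?_).countable
  rintro A' ⟨e, he⟩ i
  obtain ⟨t, rfl⟩ := hS i
  refine ⟨S (e.symm ∘ t), ?_⟩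
  have h1 := he (e.symm ∘ t)
  have h2 : e ∘ (e.symm ∘ t) = t := by funext j; simp
  rw [h2] at h1
  exact h1.symm

/-- The theorem for closed classes. -/
theorem closed_class' [TopologicalSpace Col] [PolishSpace Col] {B : Set (Str r Col ℕ)}
    (hc : IsClosed B) (hB : PInv B) : H566V.Small B ∨ PBig B := by
  classical
  by_cases hBig : PBig B
  · exact Or.inr hBig
  left
  have hfin : ∀ c ∈ B, (Set.range c).Finite := fun c hcB => by
    by_contra hinf
    exact hBig (pbig_of_infinite hc hB hcB hinf)
  have hdec : ∀ (m : ℕ) (κ : Fin m → Col) (S : Str r (Fin m) ℕ), Function.Injective κ →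
      (fun t => κ (S t)) ∈ B → IsDec S := by
    intro m κ S hκ hS
    rcases isDec_or_pc S with h | h
    · exact h
    · exact absurd (pbig_of_pc hc hB hκ hS h) hBig
  have hX : ∀ (m : ℕ) (S : Str r (Fin m) ℕ), Function.Surjective S →
      {κ : Fin m → Col | (fun t => κ (S t)) ∈ B}.Countable := by
    intro m S hS
    by_contra h
    exact hBig (pbig_of_uncountable hc hS h)
  choose code hcode using fun m : ℕ => exists_code r (Fin m) ℕ
  -- representatives
  let Rp : (m : ℕ) → Option (Code r (Fin m)) → Set (Str r Col ℕ) := fun m q =>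
    if h : ∃ S : Str r (Fin m) ℕ, IsDec S ∧ Function.Surjective S ∧ code m S = q then
      (fun (κ : Fin m → Col) (t : Fin r → ℕ) => κ (h.choose t)) ''
        {κ : Fin m → Col | (fun t => κ (h.choose t)) ∈ B}
    else ∅
  have hRp : ∀ m q, (Rp m q).Countable := by
    intro m q
    simp only [Rp]
    split_ifs with h
    · exact (hX m _ h.choose_spec.2.1).image _
    · exact Set.countable_empty
  refine ⟨⋃ m, ⋃ q, Rp m q, Set.countable_iUnion fun m => Set.countable_iUnion fun q => hRp m q,
    fun c hcB => ?_⟩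
  obtain ⟨m, κ, S, hκ, hS, hcS⟩ := exists_factor (hfin c hcB)
  have hcS' : (fun t => κ (S t)) = c := funext fun t => (hcS t).symm
  have hSd := hdec m κ S hκ (by rw [hcS']; exact hcB)
  have hex : ∃ S' : Str r (Fin m) ℕ, IsDec S' ∧ Function.Surjective S' ∧ code m S' = code m S :=
    ⟨S, hSd, hS, rfl⟩
  have hiso := hcode m _ S hex.choose_spec.1 hSd hex.choose_spec.2.2
  have hiso' : Isom (fun t => κ (hex.choose t)) c := by
    obtain ⟨e, he⟩ := hiso
    exact ⟨e, fun t => by rw [hcS, he]⟩
  refine ⟨fun t => κ (hex.choose t), ?_, hiso'⟩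
  rw [Set.mem_iUnion]
  refine ⟨m, ?_⟩
  rw [Set.mem_iUnion]
  refine ⟨code m S, ?_⟩
  simp only [Rp, dif_pos hex]
  exact ⟨κ, hB.isom hiso'.symm hcB, rfl⟩

end Pool.Agent.H566W
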