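import Pool.Agent.H566V.Fsig
import Pool.Agent.H566W.Closed

/-!
The case of countable unions of closed sets.
-/

set_option autoImplicit false

namespace Pool.Agent.H566W

open Filter Topology Pool.Agent.H566V

variable {r : ℕ} {Col : Type}

section

variable [TopologicalSpace Col]

/-- classes invariant under a stabiliser -/
theorem small_or_pbig_EE' [PolishSpace Col] {F : Set (Str r Col ℕ)} (hF : IsClosed F) (m : ℕ) :
    H566V.Small (EE' F m) ∨ PBig (EE' F m) := by
  classical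
  have hcl := hat_closed (EE'_closed hF m) m
  have hinv : PInv (hat m '' EE' F m) := by
    rintro _ ⟨x, hx, rfl⟩ σ
    rw [hat_comp]
    exact ⟨_, EE'_inv hx (fun i hi => lift_lt σ hi), rfl⟩
  rcases closed_class' hcl hinv with ⟨C, hC, hCx⟩ | ⟨g, hg0, hg1, hg2⟩
  · left
    let φ : Str r ((Fin r → Fin m ⊕ Fin r) → Col) ℕ → Set (Str r Col ℕ) := fun y =>
      if h : ∃ x ∈ EE' F m, Isom y (hat m x) then {h.choose} else ∅
    have hφ : ∀ y, (φ y).Countable := by
      intro y
      simp only [φ]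
      split_ifs with h
      · exact Set.countable_singleton _
      · exact Set.countable_empty
    refine ⟨⋃ y ∈ C, φ y, hC.biUnion (fun y _ => hφ y), fun x hx => ?_⟩
    obtain ⟨y, hy, hyx⟩ := hCx (hat m x) ⟨x, hx, rfl⟩
    have hex : ∃ x ∈ EE' F m, Isom y (hat m x) := ⟨x, hx, hyx⟩
    refine ⟨hex.choose, ?_, isom_of_hat (hex.choose_spec.2.symm.trans hyx)⟩
    rw [Set.mem_iUnion₂]
    refine ⟨y, hy, ?_⟩
    simp only [φ, dif_pos hex]
    rfl
  · right
    have h2 : Continuous (unhat (r := r) (Col := Col) m) :=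
      continuous_pi fun s => (continuous_apply (patt m s)).comp
        (continuous_apply (fun j => s j - m))
    have hx : ∀ A, unhat m (g A) ∈ EE' F m ∧ hat m (unhat m (g A)) = g A := by
      intro A
      obtain ⟨x, hx, hxg⟩ := hg1 A
      rw [← hxg, unhat_hat]
      exact ⟨hx, rfl⟩
    refine ⟨fun A => unhat m (g A), h2.comp hg0, fun A => (hx A).1, fun A => ?_⟩
    have hsub : {A' | Isom (unhat m (g A)) (unhat m (g A'))} ⊆ ⋃ q : Fin m → ℕ,
        {A' | ∃ e : Equiv.Perm ℕ, (∀ t, unhat m (g A') (e ∘ t) = unhat m (g A) t) ∧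
          ∀ i : Fin m, e.symm i = q i} := by
      rintro A' ⟨e, he⟩
      exact Set.mem_iUnion.2 ⟨fun i => e.symm i, e, he, fun i => rfl⟩
    refine (Set.countable_iUnion fun q => ?_).mono hsub
    by_cases hne : {A' | ∃ e : Equiv.Perm ℕ, (∀ t, unhat m (g A') (e ∘ t) = unhat m (g A) t) ∧
          ∀ i : Fin m, e.symm i = q i}.Nonempty
    · obtain ⟨A₁, e₁, he₁, hq₁⟩ := hne
      refine (hg2 A₁).mono ?_
      rintro A₂ ⟨e₂, he₂, hq₂⟩
      show Isom (g A₁) (g A₂)
      rw [← (hx A₁).2, ← (hx A₂).2]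
      refine isom_hat (ρ := e₁.symm.trans e₂) (fun i hi => ?_) (fun t => ?_)
      · have h3 := (hq₁ ⟨i, hi⟩).trans (hq₂ ⟨i, hi⟩).symm
        simp only at h3
        rw [Equiv.trans_apply, h3, Equiv.apply_symm_apply]
      · have h3 := he₂ (e₁.symm ∘ t)
        have h4 := he₁ (e₁.symm ∘ t)
        have h5 : e₁ ∘ (e₁.symm ∘ t) = t := by funext j; simp
        rw [h5] at h4
        rw [h4, ← h3]
        rfl
    · rw [Set.not_nonempty_iff_eq_empty.1 hne]
      exact Set.countable_empty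

/-- The theorem for `F_σ` classes. -/
theorem fsigma_class' [PolishSpace Col] {B : Set (Str r Col ℕ)} {F : ℕ → Set (Str r Col ℕ)}
    (hF : ∀ n, IsClosed (F n)) (hBF : B = ⋃ n, F n) (hB : PInv B) : H566V.Small B ∨ PBig B := by
  classical
  by_cases hBig : PBig B
  · exact Or.inr hBig
  left
  have hsmall : ∀ n m, H566V.Small (EE' (F n) m) := by
    intro n m
    rcases small_or_pbig_EE' (hF n) m with h | ⟨g, hg0, hg1, hg2⟩
    · exact h
    · exfalso
      apply hBig
      refine ⟨g, hg0, fun A => ?_, hg2⟩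
      rw [hBF]
      exact Set.mem_iUnion.2 ⟨n, EE'_sub (hg1 A)⟩
  choose C hC1 hC2 using hsmall
  refine ⟨⋃ n, ⋃ m, C n m, Set.countable_iUnion fun n => Set.countable_iUnion fun m => hC1 n m,
    fun x hx => ?_⟩
  obtain ⟨n, m, π, hπ⟩ := exists_EE' hF (x := x) (fun σ => by
    have := hB x hx σ
    rw [hBF] at this
    exact Set.mem_iUnion.1 this)
  obtain ⟨y, hy1, hy2⟩ := hC2 n m _ hπ
  refine ⟨y, Set.mem_iUnion.2 ⟨n, Set.mem_iUnion.2 ⟨m, hy1⟩⟩, hy2.trans ?_⟩
  exact ⟨π, fun t => rfl⟩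

end

end Pool.Agent.H566W
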