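import Pool.Agent.H566V.Conv
import Pool.Agent.H566W.Fsig
import Pool.Agent.H566W.Ana
import Pool.Agent.H566R2.Basic

/-!
Perfect sets of pairwise non-isomorphic structures.
-/

set_option autoImplicit false

namespace Pool.Agent.H566W

open Filter Topology Pool.Agent.H566V MeasureTheory

variable {r : ℕ} {Col : Type}

theorem cont_eval {Z Y ι : Type} [TopologicalSpace Z] [TopologicalSpace Y] [TopologicalSpace ι]
    [DiscreteTopology ι] (F : Z → ι → Y) (hF : ∀ i, Continuous (fun z => F z i)) (v : Z → ι)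
    (hv : Continuous v) : Continuous (fun z => F z (v z)) := by
  rw [continuous_iff_continuousAt]
  intro z₀
  have h1 : ∀ᶠ z in 𝓝 z₀, v z = v z₀ := by
    have : {v z₀} ∈ 𝓝 (v z₀) := by simp
    filter_upwards [hv.continuousAt this] with z hz
    simpa using hz
  refine ((hF (v z₀)).continuousAt).congr ?_
  filter_upwards [h1] with z hz
  rw [hz]

theorem polish_baire : PolishSpace (ℕ → ℕ) := by
  have : ∀ _ : ℕ, TopologicalSpace.IsCompletelyMetrizableSpace ℕ := fun _ => inferInstance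
  have : TopologicalSpace.IsCompletelyMetrizableSpace (ℕ → ℕ) :=
    TopologicalSpace.IsCompletelyMetrizableSpace.pi_countable
  infer_instance

theorem analytic_isom [TopologicalSpace Col] [T2Space Col] (g : (ℕ → Bool) → Str r Col ℕ)
    (hg : Continuous g) :
    AnalyticSet {p : (ℕ → Bool) × (ℕ → Bool) | Isom (g p.1) (g p.2)} := by
  have hp1 : PolishSpace (ℕ → Bool) := polish_cantor
  have hp2 : PolishSpace (ℕ → ℕ) := polish_baire
  set T : Set (((ℕ → Bool) × (ℕ → Bool)) × ((ℕ → ℕ) × (ℕ → ℕ))) :=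
    {q | (∀ n, q.2.1 (q.2.2 n) = n) ∧ (∀ n, q.2.2 (q.2.1 n) = n) ∧
      ∀ t : Fin r → ℕ, g q.1.2 (q.2.1 ∘ t) = g q.1.1 t} with hT
  have hc1 : ∀ (n : ℕ), Continuous (fun q : ((ℕ → Bool) × (ℕ → Bool)) × ((ℕ → ℕ) × (ℕ → ℕ)) =>
      q.2.1 n) := fun n => (continuous_apply n).comp (continuous_fst.comp continuous_snd)
  have hc2 : ∀ (n : ℕ), Continuous (fun q : ((ℕ → Bool) × (ℕ → Bool)) × ((ℕ → ℕ) × (ℕ → ℕ)) =>
      q.2.2 n) := fun n => (continuous_apply n).comp (continuous_snd.comp continuous_snd)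
  have hTc : IsClosed T := by
    have h1 : T = (⋂ n, {q | q.2.1 (q.2.2 n) = n}) ∩ ((⋂ n, {q | q.2.2 (q.2.1 n) = n}) ∩
        ⋂ t : Fin r → ℕ, {q | g q.1.2 (q.2.1 ∘ t) = g q.1.1 t}) := by
      ext q
      simp [hT]
    rw [h1]
    refine (isClosed_iInter fun n => ?_).inter ((isClosed_iInter fun n => ?_).inter
      (isClosed_iInter fun t => ?_))
    · exact isClosed_eq (cont_eval (fun (q : ((ℕ → Bool) × (ℕ → Bool)) × ((ℕ → ℕ) × (ℕ → ℕ)))
        (i : ℕ) => q.2.1 i) hc1 (fun q => q.2.2 n) (hc2 n)) continuous_const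
    · exact isClosed_eq (cont_eval (fun (q : ((ℕ → Bool) × (ℕ → Bool)) × ((ℕ → ℕ) × (ℕ → ℕ)))
        (i : ℕ) => q.2.2 i) hc2 (fun q => q.2.1 n) (hc1 n)) continuous_const
    · refine isClosed_eq (cont_eval (fun (q : ((ℕ → Bool) × (ℕ → Bool)) × ((ℕ → ℕ) × (ℕ → ℕ)))
        (i : Fin r → ℕ) => g q.1.2 i) (fun i => ?_) (fun q => q.2.1 ∘ t) ?_) ?_
      · exact (continuous_apply i).comp (hg.comp (continuous_snd.comp continuous_fst))
      · exact continuous_pi fun j => hc1 (t j)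
      · exact (continuous_apply t).comp (hg.comp (continuous_fst.comp continuous_fst))
  have hTa : AnalyticSet T := hTc.analyticSet
  have h2 := hTa.image_of_continuous (f := Prod.fst) continuous_fst
  convert h2 using 1
  ext p
  constructor
  · rintro ⟨e, he⟩
    exact ⟨(p, (e, e.symm)), ⟨fun n => by simp, fun n => by simp, he⟩, rfl⟩
  · rintro ⟨⟨p', u, v⟩, ⟨h3, h4, h5⟩, rfl⟩
    exact ⟨⟨u, v, h4, h3⟩, h5⟩

theorem perfect_of_pbig [TopologicalSpace Col] [T2Space Col] {B : Set (Str r Col ℕ)}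
    (h : PBig B) : ∃ g : (ℕ → Bool) → Str r Col ℕ, Continuous g ∧ (∀ A, g A ∈ B) ∧
      ∀ A A', Isom (g A) (g A') → A = A' := by
  obtain ⟨g, hg0, hg1, hg2⟩ := h
  obtain ⟨h, hh1, hh2⟩ := perfect_independent (fun A A' => Isom (g A) (g A'))
    (analytic_isom g hg0) hg2
  refine ⟨fun A => g (h A), hg0.comp hh1, fun A => hg1 _, fun A A' hAA => ?_⟩
  by_contra hne
  exact hh2 A A' hne hAA

variable {a : ℕ → ℕ}

theorem fsigma_perfect (ha : ∀ i, a i ≤ r) {B : Set (St a)} {F : ℕ → Set (St a)}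
    (hF : ∀ n, IsClosed (F n)) (hBF : B = ⋃ n, F n)
    (hB : ∀ x y : St a, (∃ σ : Equiv.Perm ℕ, ∀ (i : ℕ) (v : Fin (a i) → ℕ),
      y i (fun j => σ (v j)) = x i v) → x ∈ B → y ∈ B) :
    (∃ C : Set (St a), C.Countable ∧ ∀ x ∈ B, ∃ c ∈ C, ∃ σ : Equiv.Perm ℕ,
      ∀ (i : ℕ) (v : Fin (a i) → ℕ), c i (fun j => σ (v j)) = x i v) ∨
    (∃ P : Set (St a), P.Nonempty ∧ Perfect P ∧ P ⊆ B ∧ ∀ x ∈ P, ∀ y ∈ P,
      (∃ σ : Equiv.Perm ℕ, ∀ (i : ℕ) (v : Fin (a i) → ℕ), y i (fun j => σ (v j)) = x i v) →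
        x = y) := by
  classical
  have hpol := polish_cantor
  have h1 : Continuous (toS (a := a) (r := r) ha) :=
    continuous_pi fun t => continuous_pi fun i =>
      (continuous_apply (fun j => t (Fin.castLE (ha i) j))).comp (continuous_apply i)
  have h2 : Continuous (unS (r := r) a) :=
    continuous_pi fun i => continuous_pi fun v =>
      (continuous_apply i).comp (continuous_apply (pad r v))
  have him : toS ha '' B = ⋃ n, ({y | toS ha (unS a y) = y} ∩ unS a ⁻¹' F n) := by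
    ext y
    rw [Set.mem_iUnion]
    constructor
    · rintro ⟨x, hx, rfl⟩
      rw [hBF] at hx
      obtain ⟨n, hn⟩ := Set.mem_iUnion.1 hx
      exact ⟨n, by show toS ha (unS a (toS ha x)) = toS ha x; rw [unS_toS],
        by show unS a (toS ha x) ∈ F n; rw [unS_toS]; exact hn⟩
    · rintro ⟨n, h3, h4⟩
      exact ⟨unS a y, by rw [hBF]; exact Set.mem_iUnion.2 ⟨n, h4⟩, h3⟩
  have hinv : PInv (toS ha '' B) := by
    rintro _ ⟨x, hx, rfl⟩ σ
    refine ⟨fun i v => x i (σ ∘ v), ?_, rfl⟩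
    refine hB x _ ⟨σ.symm, fun i v => ?_⟩ hx
    show x i (σ ∘ fun j => σ.symm (v j)) = x i v
    congr 1
    funext j
    simp
  rcases fsigma_class' (fun n => (isClosed_eq (h1.comp h2) continuous_id).inter
    ((hF n).preimage h2)) him hinv with ⟨C, hC1, hC2⟩ | hbig
  · left
    let φ : Str r (ℕ → Bool) ℕ → Set (St a) := fun y =>
      if h : ∃ x ∈ B, Isom y (toS ha x) then {h.choose} else ∅
    have hφ : ∀ y, (φ y).Countable := by
      intro y
      simp only [φ]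
      split_ifs with h
      · exact Set.countable_singleton _
      · exact Set.countable_empty
    refine ⟨⋃ y ∈ C, φ y, hC1.biUnion (fun y _ => hφ y), fun x hx => ?_⟩
    obtain ⟨y, hy, hyx⟩ := hC2 (toS ha x) ⟨x, hx, rfl⟩
    have hex : ∃ x ∈ B, Isom y (toS ha x) := ⟨x, hx, hyx⟩
    refine ⟨hex.choose, ?_, ?_⟩
    · rw [Set.mem_iUnion₂]
      refine ⟨y, hy, ?_⟩
      simp only [φ, dif_pos hex]
      rfl
    · obtain ⟨σ, hσ⟩ := (isom_toS ha).1 (hyx.symm.trans hex.choose_spec.2)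
      refine ⟨σ, fun i v => ?_⟩
      exact hσ i v
  · right
    obtain ⟨g, hg0, hg1, hg2⟩ := perfect_of_pbig hbig
    have hx : ∀ A, unS a (g A) ∈ B ∧ toS ha (unS a (g A)) = g A := by
      intro A
      obtain ⟨x, hx, hxg⟩ := hg1 A
      rw [← hxg, unS_toS]
      exact ⟨hx, rfl⟩
    have hinj : ∀ A A', (∃ σ : Equiv.Perm ℕ, ∀ (i : ℕ) (v : Fin (a i) → ℕ),
        unS a (g A') i (σ ∘ v) = unS a (g A) i v) → A = A' := by
      intro A A' h
      apply hg2
      rw [← (hx A).2, ← (hx A').2]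
      exact (isom_toS ha).2 h
    obtain ⟨h3, h4⟩ := Pool.Agent.H566R2.perfect_range (fun A => unS a (g A)) (h2.comp hg0)
      (fun A A' hAA => hinj A A' ⟨Equiv.refl ℕ, fun i v => by
        have : unS a (g A') = unS a (g A) := hAA.symm
        rw [this]; rfl⟩)
    refine ⟨Set.range (fun A => unS a (g A)), h3, h4, ?_, ?_⟩
    · rintro _ ⟨A, rfl⟩
      exact (hx A).1
    · rintro _ ⟨A, rfl⟩ _ ⟨A', rfl⟩ h
      rw [hinj A A' h]

end Pool.Agent.H566W
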